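import Pool.Agent.T2H28.VS.Near
import Pool.Agent.Y728.AK.ValK
import Pool.Agent.T2H20.AH.Hb

/-!
# The counting function over `ℚ`, all points
-/

set_option autoImplicit false

namespace Pool.Agent.T2H28.VS

open Finset NumberField IsDedekindDomain Filter Topology

open Classical in
/-- the counting function as a sum over the prime numbers -/
theorem cnt_log {q : ℕ} (a : Fin q → ℚ) {x : ℚ} (hx : ∀ j, x ≠ a j) :
    (∑ᶠ p : ℕ, if p.Prime ∧ ∃ j, (p : ℤ) ∣ cr x (a j) then Real.log p else 0) =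
      Real.log (rd (NP a x)) := by
  have hN := NP_ne hx
  have hiff : ∀ p : ℕ, (p.Prime ∧ ∃ j, (p : ℤ) ∣ cr x (a j)) ↔ p ∈ (NP a x).primeFactors := by
    intro p
    rw [Nat.mem_primeFactors]
    constructor
    · rintro ⟨hp, j, hj⟩
      refine ⟨hp, ?_, hN⟩
      unfold NP
      rw [hp.prime.dvd_finsetProd_iff]
      exact ⟨j, Finset.mem_univ _, Int.natCast_dvd.1 hj⟩
    · rintro ⟨hp, hd, -⟩
      refine ⟨hp, ?_⟩
      unfold NP at hd
      rw [hp.prime.dvd_finsetProd_iff] at hd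
      obtain ⟨j, -, hj⟩ := hd
      exact ⟨j, Int.natCast_dvd.2 hj⟩
  rw [finsum_eq_sum_of_support_subset (s := (NP a x).primeFactors)]
  · unfold rd
    rw [Nat.cast_prod, Real.log_prod (by
      intro p hp
      exact_mod_cast (Nat.prime_of_mem_primeFactors hp).ne_zero)]
    refine Finset.sum_congr rfl fun p hp => ?_
    exact if_pos ((hiff p).2 hp)
  · intro p hp
    rw [Function.mem_support] at hp
    rw [Finset.mem_coe, ← hiff]
    by_contra hcon
    exact hp (if_neg hcon)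

open Classical in
/-- the library's counting function -/
theorem cntK_rd {q : ℕ} (a : Fin q → ℚ) {x : ℚ} (hx : ∀ j, x ≠ a j) :
    Pool.Agent.Y728.AK.cntK ∅ a x = Real.log (rd (NP a x)) := by
  rw [← counting_rd a hx]
  unfold Pool.Agent.Y728.AK.cntK Pool.Agent.Y728.AK.NearK
  refine finsum_congr fun v => ?_
  by_cases h : ∃ j,
      v.valuation ℚ (x - a j) < max (v.valuation ℚ (a j)) 1 * max (v.valuation ℚ x) 1
  · exact (if_pos ⟨Finset.notMem_empty v, h⟩).trans (if_pos h).symm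
  · exact (if_neg fun h' => h h'.2).trans (if_neg h).symm

theorem mulHeight_hh (x : ℚ) : Height.mulHeight₁ x = (hh x : ℝ) := by
  rw [Rat.mulHeight₁_eq_max]
  rfl

theorem rd_le_iff {n : ℕ} {X : ℝ} (hX : 0 < X) :
    Real.log (rd n) ≤ Real.log X ↔ (rd n : ℝ) ≤ X := by
  have h : (0 : ℝ) < rd n := by exact_mod_cast rd_pos n
  exact Real.log_le_log_iff h hX

theorem rd_lt_iff {n : ℕ} {x : ℚ} (θ : ℝ) :
    Real.log (rd n) < θ * Real.log (hh x) ↔ (rd n : ℝ) < (hh x : ℝ) ^ θ := by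
  have h : (0 : ℝ) < rd n := by exact_mod_cast rd_pos n
  have h2 : (0 : ℝ) < hh x := by
    have : 1 ≤ hh x := le_trans x.pos (le_max_right _ _)
    exact_mod_cast this
  rw [← Real.log_rpow h2]
  exact Real.log_lt_log_iff h (by positivity)

/-- all rational numbers with a given bound for the radical -/
theorem total_tendsto (a : Fin 3 → ℚ) (ha : Function.Injective a) :
    Tendsto (fun X : ℝ => Real.log
      (({x : ℚ | (∀ j, x ≠ a j) ∧ (rd (NP a x) : ℝ) ≤ X}.ncard : ℝ)) / Real.log X) atTop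
      (𝓝 (2 / 3)) := by
  have hset : ∀ X : ℝ, 1 ≤ X → {x : ℚ | (∀ j, x ≠ a j) ∧ (rd (NP a x) : ℝ) ≤ X} =
      Pool.Agent.Y728.AK.ValAllK ℚ ∅ a X := by
    intro X hX
    ext x
    refine and_congr_right fun hx => ?_
    rw [cntK_rd a hx, rd_le_iff (by linarith)]
  refine Pool.Agent.T2H20.AH.tendsto_exponent (fun ε hε => ?_) fun ε hε => ?_
  · obtain ⟨C, hC⟩ := Pool.Agent.Y728.AK.val_allK ℚ (q := 3) le_rfl ∅ a ha ε hε
    refine ⟨max C 1, by positivity, fun X hX => ?_⟩
    rw [hset X hX]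
    refine (hC X hX).2.trans ?_
    have e : ((3 : ℕ) : ℝ) = 3 := by norm_num
    rw [e]
    exact mul_le_mul_of_nonneg_right (le_max_left _ _) (Real.rpow_nonneg (by linarith) _)
  · obtain ⟨X₀, h1, h⟩ := Pool.Agent.Y728.AK.val_lowK ℚ (q := 3) le_rfl ∅ a ha ε hε
    refine ⟨X₀, fun X hX => ?_⟩
    rw [hset X (h1.trans hX)]
    have h2 := h X hX
    have e : ((3 : ℕ) : ℝ) = 3 := by norm_num
    rwa [e] at h2

end Pool.Agent.T2H28.VS
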