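import Pool.Agent.T2H28.VS.Voj
import Pool.Agent.T2H28.VS.Com

/-!
# Vojta's inequality on stacky curves over the rational points with large counting function
-/

set_option autoImplicit false

namespace Pool.Agent.T2H28.VS

open Polynomial IsDedekindDomain NumberField
open Pool.Agent.Results.MP_a41896_nt.OneExceptionalSet

theorem vojtaQ (q : ℕ) (a : Fin q → ℚ) (θ : ℝ) (hθ : 0 ≤ θ) (C₀ : ℝ) (ε : ℝ) (hε : 0 < ε)
    (k : Type) [Field k] [NumberField k] (A : Type) [CommRing A] [IsDedekindDomain A]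
        [Algebra k A] [Algebra k[X] A] [IsScalarTower k k[X] A] [Module.Finite k[X] A]
        [FaithfulSMul k[X] A] (n : ℕ) (j : Fin n → Fin q) (s : Fin n → ℕ)
        (z : ∀ l, Fin (s l + 1) → A)
        (hz0 : ∀ l, z l 0 = coord k A - algebraMap k A (algebraMap ℚ k (a (j l))))
        (hcov : ∀ i, ∏ l with j l = i, Ideal.span (Set.range (z l)) ≤
          (Ideal.span {coord k A - algebraMap k A (algebraMap ℚ k (a i))}).radical)
        (S : Finset ℕ) (hS : ∀ p ∈ S, p.Prime) : ∃ c : ℝ,
          ∀ x : ℚ, θ * Real.log (hh x) ≤ Real.log (rd (NP a x)) + C₀ → (∀ i, x ≠ a i) →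
          ∀ (L : Type) [Field L] [NumberField L] [Algebra k L] (φ : A →ₐ[k] L),
            φ (coord k A) = algebraMap ℚ L x → ∀ e : Fin n → ℕ, (∀ l, 1 ≤ e l) →
            IsIntegralPoint S z e φ → ∀ J : Finset (Fin n),
              (θ - ssum k z e J - ε) * Real.log (hh x) ≤
                truncated S z J φ + logDisc L + c := by
  obtain ⟨c, hc⟩ := vojta ℚ q a θ hθ C₀ ε hε k A n j s z hz0 hcov S hS
  refine ⟨c, fun x hx hxa L _ _ _ φ hφ e he hint J => ?_⟩
  have h2 := cntK_rd a hxa
  have hid : ∀ y : ℚ, algebraMap ℚ ℚ y = y := fun y => by simp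
  have h3 : θ * Real.log (Height.mulHeight₁ x) ≤
      Pool.Agent.Y728.AK.cntK ∅ a x + C₀ := by
    rw [mulHeight_hh, h2]
    exact hx
  have h1 := hc x (by simpa using h3) (by simpa using hxa) L φ hφ e he hint J
  have h4 : height x = Real.log (hh x) := by
    unfold height
    rw [Height.logHeight₁_eq_log_mulHeight₁, mulHeight_hh, Module.finrank_self, Nat.cast_one,
      div_one]
  rwa [h4] at h1

end Pool.Agent.T2H28.VS
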