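import Pool.Agent.T2H28.VS.Near
import Pool.Agent.T2H21.RS.Prob

/-!
# The exceptional rational numbers supported on a random set of primes
-/

set_option autoImplicit false

namespace Pool.Agent.T2H28.VS

open Finset MeasureTheory

theorem prime_dvd_NP {q : ℕ} {f : Fin q → ℚ} {x : ℚ} {p : ℕ} (hp : p.Prime) :
    p ∣ NP f x ↔ ∃ j, (p : ℤ) ∣ cr x (f j) := by
  unfold NP
  rw [hp.prime.dvd_finsetProd_iff]
  constructor
  · rintro ⟨j, -, hj⟩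
    exact ⟨j, Int.natCast_dvd.2 hj⟩
  · rintro ⟨j, hj⟩
    exact ⟨j, Finset.mem_univ _, Int.natCast_dvd.1 hj⟩

/-- the probability that a rational number is supported on a random set -/
theorem supp_prob {Ω : Type*} [MeasurableSpace Ω] {P : Measure Ω} {γ : ℝ} (hγ : 0 ≤ γ)
    {E : ℕ → Set Ω} (h : ∀ D : Finset ℕ, (∀ p ∈ D, p.Prime) →
      P (⋂ p ∈ D, E p) ≤ ENNReal.ofReal (∏ p ∈ D, (p : ℝ) ^ (-γ))) (T : Finset ℕ)
    {q : ℕ} (f : Fin q → ℚ) {x : ℚ} (hx : ∀ j, x ≠ f j) :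
    P {ω | ∀ p : ℕ, p.Prime → (∃ j, (p : ℤ) ∣ cr x (f j)) → p ∈ T ∨ ω ∈ E p} ≤
      ENNReal.ofReal ((∏ p ∈ T, max 1 (p : ℝ) ^ γ) * (rd (NP f x) : ℝ) ^ (-γ)) := by
  classical
  set m := NP f x with hm
  have hm0 : m ≠ 0 := NP_ne hx
  have hsub : {ω | ∀ p : ℕ, p.Prime → (∃ j, (p : ℤ) ∣ cr x (f j)) → p ∈ T ∨ ω ∈ E p} ⊆
      ⋂ p ∈ m.primeFactors \ T, E p := by
    intro ω hω
    simp only [Set.mem_iInter]
    intro p hp
    rw [mem_sdiff] at hp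
    have hpp := Nat.prime_of_mem_primeFactors hp.1
    rcases hω p hpp ((prime_dvd_NP hpp).1 (Nat.dvd_of_mem_primeFactors hp.1)) with h | h
    · exact absurd h hp.2
    · exact h
  refine (measure_mono hsub).trans ((h _ fun p hp =>
    Nat.prime_of_mem_primeFactors (mem_sdiff.1 hp).1).trans (ENNReal.ofReal_le_ofReal ?_))
  have e1 : (rd m : ℝ) ^ (-γ) = ∏ p ∈ m.primeFactors, (p : ℝ) ^ (-γ) := by
    unfold rd
    rw [Nat.cast_prod, Real.finsetProd_rpow _ _ fun p _ => Nat.cast_nonneg p]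
  have e2 : ∏ p ∈ m.primeFactors, (p : ℝ) ^ (-γ) =
      (∏ p ∈ m.primeFactors \ T, (p : ℝ) ^ (-γ)) * ∏ p ∈ m.primeFactors ∩ T, (p : ℝ) ^ (-γ) := by
    rw [← prod_sdiff (inter_subset_left : m.primeFactors ∩ T ⊆ m.primeFactors)]
    congr 1
    refine prod_congr ?_ fun _ _ => rfl
    ext p
    simp only [mem_sdiff, mem_inter, not_and]
    tauto
  have e3 : (∏ p ∈ m.primeFactors ∩ T, (p : ℝ) ^ (-γ)) * ∏ p ∈ m.primeFactors ∩ T, max 1 (p : ℝ) ^ γ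
      = 1 := by
    rw [← prod_mul_distrib]
    refine prod_eq_one fun p hp => ?_
    have hp1 : (1 : ℝ) ≤ p := by
      exact_mod_cast (Nat.prime_of_mem_primeFactors (mem_inter.1 hp).1).one_le
    rw [max_eq_right hp1, ← Real.rpow_add (by linarith), neg_add_cancel, Real.rpow_zero]
  have e4 : ∏ p ∈ m.primeFactors ∩ T, max 1 (p : ℝ) ^ γ ≤ ∏ p ∈ T, max 1 (p : ℝ) ^ γ := by
    rw [← prod_sdiff (inter_subset_right : m.primeFactors ∩ T ⊆ T)]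
    refine le_mul_of_one_le_left (prod_nonneg fun p _ => by positivity) ?_
    have := prod_le_prod (s := T \ (m.primeFactors ∩ T)) (f := fun _ => (1 : ℝ))
      (g := fun p : ℕ => max 1 (p : ℝ) ^ γ) (fun _ _ => zero_le_one)
      (fun p _ => Real.one_le_rpow (le_max_left _ _) hγ)
    simpa using this
  have hD : 0 ≤ ∏ p ∈ m.primeFactors \ T, (p : ℝ) ^ (-γ) :=
    prod_nonneg fun p _ => Real.rpow_nonneg (Nat.cast_nonneg p) _
  have hI : 0 ≤ ∏ p ∈ m.primeFactors ∩ T, (p : ℝ) ^ (-γ) :=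
    prod_nonneg fun p _ => Real.rpow_nonneg (Nat.cast_nonneg p) _
  rw [e1, e2]
  calc ∏ p ∈ m.primeFactors \ T, (p : ℝ) ^ (-γ) =
        (∏ p ∈ m.primeFactors \ T, (p : ℝ) ^ (-γ)) *
          ((∏ p ∈ m.primeFactors ∩ T, (p : ℝ) ^ (-γ)) *
            ∏ p ∈ m.primeFactors ∩ T, max 1 (p : ℝ) ^ γ) := by rw [e3, mul_one]
    _ = (∏ p ∈ m.primeFactors ∩ T, max 1 (p : ℝ) ^ γ) *
          ((∏ p ∈ m.primeFactors \ T, (p : ℝ) ^ (-γ)) *
            ∏ p ∈ m.primeFactors ∩ T, (p : ℝ) ^ (-γ)) := by ring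
    _ ≤ _ := mul_le_mul_of_nonneg_right e4 (mul_nonneg hD hI)

/-- **almost surely only finitely many exceptional rational numbers are supported** -/
theorem random_finite {q : ℕ} (f : Fin q → ℚ) (V : Set ℚ) (hV : ∀ x ∈ V, ∀ j, x ≠ f j)
    {C s γ : ℝ} (hs : 0 ≤ s) (hsγ : s < γ)
    (hc : ∀ X : ℝ, 1 ≤ X → {x | x ∈ V ∧ (rd (NP f x) : ℝ) ≤ X}.Finite ∧
      ({x | x ∈ V ∧ (rd (NP f x) : ℝ) ≤ X}.ncard : ℝ) ≤ C * X ^ s)
    {Ω : Type*} [MeasurableSpace Ω] (P : Measure Ω) (E : ℕ → Set Ω)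
    (h : ∀ D : Finset ℕ, (∀ p ∈ D, p.Prime) →
      P (⋂ p ∈ D, E p) ≤ ENNReal.ofReal (∏ p ∈ D, (p : ℝ) ^ (-γ))) :
    ∀ᵐ ω ∂P, ∀ T : Finset ℕ, {x : ℚ | x ∈ V ∧
      ∀ p : ℕ, p.Prime → (∃ j, (p : ℤ) ∣ cr x (f j)) → p ∈ T ∨ ω ∈ E p}.Finite := by
  classical
  have hγ0 : 0 ≤ γ := by linarith
  have hsum : Summable fun t : V => (rd (NP f t.1) : ℝ) ^ (-γ) := by
    refine Pool.Agent.T2H21.RS.summable_rpow (fun t : V => rd (NP f t.1))
      (fun t => rd_pos _) (C := C) (θ := s) hs hsγ ?_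
    intro X hX t ht
    have hX1 : (1 : ℝ) ≤ (X : ℝ) := by exact_mod_cast hX
    obtain ⟨f1, f2⟩ := hc X hX1
    have h1 : (t.map (Function.Embedding.subtype _)).card ≤
        {x | x ∈ V ∧ (rd (NP f x) : ℝ) ≤ (X : ℝ)}.ncard := by
      rw [Set.ncard_eq_toFinset_card _ f1]
      refine card_le_card fun y hy => ?_
      rw [mem_map] at hy
      obtain ⟨u, hu, rfl⟩ := hy
      rw [Set.Finite.mem_toFinset]
      exact ⟨u.2, by exact_mod_cast ht u hu⟩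
    rw [card_map] at h1
    exact le_trans (by exact_mod_cast h1) f2
  rw [ae_all_iff]
  intro T
  have hfin : ∑' t : V, P {ω | ∀ p : ℕ, p.Prime → (∃ j, (p : ℤ) ∣ cr t.1 (f j)) →
      p ∈ T ∨ ω ∈ E p} ≠ ⊤ := by
    refine ne_top_of_le_ne_top ?_ (ENNReal.tsum_le_tsum fun t =>
      supp_prob hγ0 h T f (hV t.1 t.2))
    exact (hsum.mul_left _).tsum_ofReal_ne_top
  filter_upwards [ae_finite_setOfPred_mem hfin] with ω hω
  refine (hω.image Subtype.val).subset ?_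
  rintro x ⟨h1, h2⟩
  exact ⟨⟨x, h1⟩, h2, rfl⟩

end Pool.Agent.T2H28.VS
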