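import Pool.Agent.T2H28.VS.Trq

/-!
# Rational numbers and triples of coprime integers: counting
-/

set_option autoImplicit false

namespace Pool.Agent.T2H28.VS

open Finset

/-- upper bounds -/
theorem upper (f : Fin 3 → ℚ) (hf : Function.Injective f) (E : Set ℚ)
    (hE : ∀ x ∈ E, ∀ j, x ≠ f j) (F : Set (ℕ × ℕ)) (hF : F.Finite)
    (h : ∀ x ∈ E, ∀ i j k : Fin 3, i ≠ j → j ≠ k → i ≠ k → Dom (f i) (f j) (f k) x →
      Tr (f i) (f j) (f k) x ∈ F) :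
    E.Finite ∧ E.ncard ≤ 27 * F.ncard := by
  classical
  have hc : ∀ x ∈ E, ∃ t : Fin 3 × Fin 3 × Fin 3, (t.1 ≠ t.2.1 ∧ t.2.1 ≠ t.2.2 ∧ t.1 ≠ t.2.2) ∧
      Dom (f t.1) (f t.2.1) (f t.2.2) x := fun x hx => cover f hf x (hE x hx)
  choose! t ht using hc
  obtain ⟨φ, hφ⟩ : ∃ φ : ℚ → (Fin 3 × Fin 3 × Fin 3) × (ℕ × ℕ), φ = fun x =>
    (t x, Tr (f (t x).1) (f (t x).2.1) (f (t x).2.2) x) := ⟨_, rfl⟩
  have hmaps : ∀ x ∈ E, φ x ∈ (Set.univ : Set (Fin 3 × Fin 3 × Fin 3)) ×ˢ F := by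
    intro x hx
    obtain ⟨⟨h1, h2, h3⟩, h4⟩ := ht x hx
    rw [hφ]
    exact ⟨Set.mem_univ _, h x hx _ _ _ h1 h2 h3 h4⟩
  have hinj : Set.InjOn φ E := by
    intro x hx y hy hxy
    obtain ⟨⟨h1, h2, h3⟩, h4⟩ := ht x hx
    obtain ⟨-, h5⟩ := ht y hy
    rw [hφ] at hxy
    simp only [Prod.mk.injEq] at hxy
    obtain ⟨e1, e2⟩ := hxy
    rw [← e1] at e2 h5
    exact Tr_inj (fun e => h1 (hf e)) (fun e => h2 (hf e)) (fun e => h3 (hf e)) h4 h5 e2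
  have hfin : ((Set.univ : Set (Fin 3 × Fin 3 × Fin 3)) ×ˢ F).Finite := Set.finite_univ.prod hF
  refine ⟨Set.Finite.of_injOn hmaps hinj hfin, ?_⟩
  have h1 := Set.ncard_le_ncard_of_injOn φ hmaps hinj hfin
  rw [Set.ncard_prod, Set.ncard_univ] at h1
  have h2 : Nat.card (Fin 3 × Fin 3 × Fin 3) = 27 := by
    rw [Nat.card_eq_fintype_card, Fintype.card_prod, Fintype.card_prod, Fintype.card_fin]
  rwa [h2] at h1

/-- the inverse map -/
def Iv (a b c : ℚ) (q : ℕ × ℕ) : ℚ :=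
  (a * (cr c b * a.den) * q.2 - b * (cr a c * b.den) * q.1) /
    ((cr c b * a.den) * q.2 - (cr a c * b.den) * q.1)

theorem cr_self (x : ℚ) : cr x x = 0 := by unfold cr; ring

theorem Iv_spec {a b c : ℚ} (hab : a ≠ b) (hbc : b ≠ c) (hac : a ≠ c) {q : ℕ × ℕ}
    (h1 : 0 < q.1) (h2 : q.1 ≤ q.2) (hq : Nat.Coprime q.1 q.2)
    (hD : ((cr c b * a.den) * q.2 - (cr a c * b.den) * q.1 : ℚ) ≠ 0) :
    Iv a b c q ≠ a ∧ Iv a b c q ≠ b ∧ Iv a b c q ≠ c ∧ Dom a b c (Iv a b c q) ∧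
      Tr a b c (Iv a b c q) = q := by
  obtain ⟨A, B⟩ := q
  have h1' : 0 < A := h1
  have h2' : A ≤ B := h2
  have hB : 0 < B := lt_of_lt_of_le h1' h2'
  have hq' : Nat.Coprime A B := hq
  obtain ⟨α, hα⟩ : ∃ α : ℚ, α = cr c b * a.den := ⟨_, rfl⟩
  obtain ⟨β, hβ⟩ : ∃ β : ℚ, β = cr a c * b.den := ⟨_, rfl⟩
  have hD' : α * B - β * A ≠ 0 := by rw [hα, hβ]; exact hD
  obtain ⟨x, hx⟩ : ∃ x, x = Iv a b c (A, B) := ⟨_, rfl⟩
  have hxe : x = (a * α * B - b * β * A) / (α * B - β * A) := by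
    rw [hx, hα, hβ]
    rfl
  rw [← hx]
  have had : (a.den : ℚ) ≠ 0 := by exact_mod_cast a.den_nz
  have hbd : (b.den : ℚ) ≠ 0 := by exact_mod_cast b.den_nz
  have hxd : (x.den : ℚ) ≠ 0 := by exact_mod_cast x.den_nz
  have hA0 : (A : ℚ) ≠ 0 := by exact_mod_cast h1'.ne'
  have hB0 : (B : ℚ) ≠ 0 := by exact_mod_cast hB.ne'
  have hα0 : α ≠ 0 := by
    rw [hα]
    exact mul_ne_zero (by exact_mod_cast cr_ne hbc.symm) had
  have hβ0 : β ≠ 0 := by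
    rw [hβ]
    exact mul_ne_zero (by exact_mod_cast cr_ne hac) hbd
  have hab0 : a - b ≠ 0 := sub_ne_zero.2 hab
  have e1 : x - a = (a - b) * β * A / (α * B - β * A) := by
    rw [hxe]
    field_simp
    ring
  have e2 : x - b = (a - b) * α * B / (α * B - β * A) := by
    rw [hxe]
    field_simp
    ring
  have hxa : x ≠ a := by
    rw [← sub_ne_zero, e1]
    exact div_ne_zero (mul_ne_zero (mul_ne_zero hab0 hβ0) hA0) hD'
  have hxb : x ≠ b := by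
    rw [← sub_ne_zero, e2]
    exact div_ne_zero (mul_ne_zero (mul_ne_zero hab0 hα0) hB0) hD'
  have e3 : ((mem3 a b c x : ℤ) : ℚ) = α * x.den * (x - a) := by
    unfold mem3
    push_cast
    rw [cr_cast x a, hα]
    ring
  have e4 : ((mem3 b c a x : ℤ) : ℚ) = β * x.den * (x - b) := by
    unfold mem3
    push_cast
    rw [cr_cast x b, hβ]
    ring
  have e5 : mem3 a b c x * B = mem3 b c a x * A := by
    have : ((mem3 a b c x : ℤ) : ℚ) * B = (mem3 b c a x : ℤ) * A := by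
      rw [e3, e4, e1, e2]
      ring
    exact_mod_cast this
  have hcop : IsCoprime (A : ℤ) (B : ℤ) := Nat.isCoprime_iff_coprime.2 hq'
  have hdv : (A : ℤ) ∣ mem3 a b c x := hcop.dvd_of_dvd_mul_right ⟨mem3 b c a x, by rw [e5]; ring⟩
  obtain ⟨k, hk⟩ := hdv
  have hk2 : mem3 b c a x = B * k := by
    have hA0' : (A : ℤ) ≠ 0 := by exact_mod_cast h1'.ne'
    apply mul_right_cancel₀ hA0'
    rw [← e5, hk]
    ring
  have hk0 : k ≠ 0 := by
    rintro rfl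
    rw [mul_zero] at hk
    exact mem3_ne hbc hxa hk
  have hxc : x ≠ c := by
    rintro rfl
    have h3 := sum_mem a b x x
    have h4 : mem3 x a b x = 0 := by unfold mem3; rw [cr_self, mul_zero]
    rw [h4, add_zero, hk, hk2, ← add_mul] at h3
    rcases mul_eq_zero.1 h3 with h5 | h5
    · have : (0 : ℤ) < A + B := by exact_mod_cast Nat.add_pos_left h1' B
      omega
    · exact hk0 h5
  have hka : 0 < k.natAbs := Int.natAbs_pos.2 hk0
  have hg : gg a b c x = k.natAbs := by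
    unfold gg
    rw [hk, hk2, Int.gcd, Int.natAbs_mul, Int.natAbs_mul, Int.natAbs_natCast, Int.natAbs_natCast,
      Nat.gcd_mul_right, hq', one_mul]
  refine ⟨hxa, hxb, hxc, ⟨?_, ?_⟩, ?_⟩
  · rw [hk, hk2]
    have h3 : (0 : ℤ) < A * B := by exact_mod_cast Nat.mul_pos h1' hB
    have h4 : 0 < k * k := mul_self_pos.2 hk0
    nlinarith
  · rw [hk, hk2, Int.natAbs_mul, Int.natAbs_mul, Int.natAbs_natCast, Int.natAbs_natCast]
    exact Nat.mul_le_mul_right _ h2'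
  · unfold Tr
    rw [hg, hk, hk2, Int.natAbs_mul, Int.natAbs_mul, Int.natAbs_natCast, Int.natAbs_natCast,
      Nat.mul_div_cancel _ hka, Nat.mul_div_cancel _ hka]

/-- lower bounds -/
theorem lower {a b c : ℚ} (hab : a ≠ b) (hbc : b ≠ c) (hac : a ≠ c) (E : Set ℚ) (hE : E.Finite)
    (F : Set (ℕ × ℕ)) (hF : ∀ q ∈ F, 0 < q.1 ∧ q.1 ≤ q.2 ∧ Nat.Coprime q.1 q.2)
    (h : ∀ x : ℚ, x ≠ a → x ≠ b → x ≠ c → Dom a b c x → Tr a b c x ∈ F → x ∈ E) :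
    F.Finite ∧ F.ncard ≤ E.ncard + 1 := by
  classical
  obtain ⟨F0, hF0⟩ : ∃ F0 : Set (ℕ × ℕ), F0 = {q | q ∈ F ∧
    ((cr c b * a.den) * q.2 - (cr a c * b.den) * q.1 : ℚ) = 0} := ⟨_, rfl⟩
  obtain ⟨F1, hF1⟩ : ∃ F1 : Set (ℕ × ℕ), F1 = {q | q ∈ F ∧
    ((cr c b * a.den) * q.2 - (cr a c * b.den) * q.1 : ℚ) ≠ 0} := ⟨_, rfl⟩
  have hsub : F0.Subsingleton := by
    intro q hq r hr
    rw [hF0] at hq hr
    obtain ⟨hq1, hq2⟩ := hq
    obtain ⟨hr1, hr2⟩ := hr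
    obtain ⟨q1, q2, q3⟩ := hF q hq1
    obtain ⟨r1, r2, r3⟩ := hF r hr1
    have had : (a.den : ℚ) ≠ 0 := by exact_mod_cast a.den_nz
    have hα0 : (cr c b * a.den : ℚ) ≠ 0 :=
      mul_ne_zero (by exact_mod_cast cr_ne hbc.symm) had
    have e1 : (q.2 : ℚ) * r.1 = r.2 * q.1 := by
      apply mul_left_cancel₀ hα0
      linear_combination (r.1 : ℚ) * hq2 - (q.1 : ℚ) * hr2
    have e2 : q.2 * r.1 = r.2 * q.1 := by exact_mod_cast e1
    have d1 : q.1 ∣ r.1 := by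
      have : q.1 ∣ q.2 * r.1 := ⟨r.2, by rw [e2]; ring⟩
      exact q3.dvd_of_dvd_mul_left this
    have d2 : r.1 ∣ q.1 := by
      have : r.1 ∣ r.2 * q.1 := ⟨q.2, by rw [← e2]; ring⟩
      exact r3.dvd_of_dvd_mul_left this
    have e3 : q.1 = r.1 := Nat.dvd_antisymm d1 d2
    have e4 : q.2 = r.2 := by
      rw [e3] at e2
      exact Nat.eq_of_mul_eq_mul_right r1 e2
    exact Prod.ext e3 e4
  have hmaps : ∀ q ∈ F1, Iv a b c q ∈ E := by
    intro q hq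
    rw [hF1] at hq
    obtain ⟨q1, q2, q3⟩ := hF q hq.1
    obtain ⟨h1, h2, h3, h4, h5⟩ := Iv_spec hab hbc hac q1 q2 q3 hq.2
    exact h _ h1 h2 h3 h4 (by rw [h5]; exact hq.1)
  have hinj : Set.InjOn (Iv a b c) F1 := by
    intro q hq r hr hqr
    rw [hF1] at hq hr
    obtain ⟨q1, q2, q3⟩ := hF q hq.1
    obtain ⟨r1, r2, r3⟩ := hF r hr.1
    have h5 := (Iv_spec hab hbc hac q1 q2 q3 hq.2).2.2.2.2
    have h6 := (Iv_spec hab hbc hac r1 r2 r3 hr.2).2.2.2.2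
    rw [← h5, ← h6, hqr]
  have hF1f : F1.Finite := Set.Finite.of_injOn hmaps hinj hE
  have hun : F = F1 ∪ F0 := by
    ext q
    rw [hF0, hF1, Set.mem_union, Set.mem_ofPred_eq, Set.mem_ofPred_eq]
    tauto
  refine ⟨by rw [hun]; exact hF1f.union hsub.finite, ?_⟩
  have h1 := Set.ncard_le_ncard_of_injOn (Iv a b c) hmaps hinj hE
  have h2 : F0.ncard ≤ 1 := by
    rcases hsub.eq_empty_or_singleton with h3 | ⟨z, h3⟩
    · rw [h3, Set.ncard_empty]; exact Nat.zero_le 1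
    · rw [h3, Set.ncard_singleton]
  calc F.ncard = (F1 ∪ F0).ncard := by rw [← hun]
    _ ≤ F1.ncard + F0.ncard := Set.ncard_union_le _ _
    _ ≤ E.ncard + 1 := Nat.add_le_add h1 h2

end Pool.Agent.T2H28.VS
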