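import Pool.Agent.T2H28.VS.Trq
import Pool.Agent.R931.IR.RatPlace

/-!
# The truncated counting function of a rational number
-/

set_option autoImplicit false

namespace Pool.Agent.T2H28.VS

open Finset NumberField IsDedekindDomain Pool.Agent.R931.IR

theorem val_int_le (v : HeightOneSpectrum (𝓞 ℚ)) (z : ℤ) : v.valuation ℚ (z : ℚ) ≤ 1 := by
  have h := v.valuation_le_one (K := ℚ) (z : 𝓞 ℚ)
  simpa using h

theorem val_int_lt (v : HeightOneSpectrum (𝓞 ℚ)) (z : ℤ) :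
    v.valuation ℚ (z : ℚ) < 1 ↔ (z : 𝓞 ℚ) ∈ v.asIdeal := by
  have h := v.valuation_lt_one_iff_mem (K := ℚ) (z : 𝓞 ℚ)
  simpa using h

theorem mem_iff_dvd {p : ℕ} (hp : p.Prime) {v : HeightOneSpectrum (𝓞 ℚ)}
    (hv : (p : 𝓞 ℚ) ∈ v.asIdeal) (z : ℤ) : (z : 𝓞 ℚ) ∈ v.asIdeal ↔ (p : ℤ) ∣ z := by
  constructor
  · intro h
    by_contra hcon
    have hc : IsCoprime (p : ℤ) z := (Nat.prime_iff_prime_int.1 hp).coprime_iff_not_dvd.2 hcon
    obtain ⟨s, t, hst⟩ := hc
    apply v.isPrime.ne_top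
    rw [Ideal.eq_top_iff_one]
    have h1 : (1 : 𝓞 ℚ) = s * p + t * z := by exact_mod_cast hst.symm
    rw [h1]
    exact v.asIdeal.add_mem (Ideal.mul_mem_left _ _ hv) (Ideal.mul_mem_left _ _ h)
  · rintro ⟨c, rfl⟩
    push_cast
    exact Ideal.mul_mem_right _ _ hv

/-- the larger of `|x|` and `1` -/
theorem max_val (v : HeightOneSpectrum (𝓞 ℚ)) (x : ℚ) :
    max (v.valuation ℚ x) 1 * v.valuation ℚ (x.den : ℚ) = 1 := by
  obtain ⟨p, hp, hv⟩ := exists_prime v
  have e1 : v.valuation ℚ x * v.valuation ℚ (x.den : ℚ) = v.valuation ℚ ((x.num : ℤ) : ℚ) := by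
    rw [← map_mul, Rat.mul_den_eq_num]
  have hd0 : v.valuation ℚ (x.den : ℚ) ≠ 0 := by
    rw [Ne, map_eq_zero]
    exact_mod_cast x.den_nz
  have hn := val_int_le v x.num
  have hd : v.valuation ℚ (x.den : ℚ) ≤ 1 := by
    have := val_int_le v (x.den : ℤ)
    simpa using this
  have hnd : ¬ (v.valuation ℚ ((x.num : ℤ) : ℚ) < 1 ∧ v.valuation ℚ (x.den : ℚ) < 1) := by
    rintro ⟨h1, h2⟩
    have h3 : v.valuation ℚ (((x.den : ℤ) : ℤ) : ℚ) < 1 := by simpa using h2
    rw [val_int_lt, mem_iff_dvd hp hv] at h1 h3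
    have h4 : p ∣ x.num.natAbs := Int.natCast_dvd.1 h1
    have h5 : p ∣ x.den := by exact_mod_cast h3
    have h6 := Nat.dvd_gcd h4 h5
    have h7 : Nat.gcd x.num.natAbs x.den = 1 := x.reduced
    rw [h7] at h6
    exact hp.one_lt.ne' (Nat.dvd_one.1 h6)
  rcases le_total (v.valuation ℚ x) 1 with h | h
  · rw [max_eq_right h, one_mul]
    refine le_antisymm hd (not_lt.1 fun hlt => hnd ⟨?_, hlt⟩)
    rw [← e1]
    exact lt_of_le_of_lt (mul_le_of_le_one_left' h) hlt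
  · rw [max_eq_left h, e1]
    refine le_antisymm hn (not_lt.1 fun hlt => hnd ⟨hlt, ?_⟩)
    refine lt_of_le_of_lt ?_ hlt
    rw [← e1]
    exact le_mul_of_one_le_left' h

theorem near_iff {p : ℕ} (hp : p.Prime) {v : HeightOneSpectrum (𝓞 ℚ)}
    (hv : (p : 𝓞 ℚ) ∈ v.asIdeal) (a x : ℚ) :
    v.valuation ℚ (x - a) < max (v.valuation ℚ a) 1 * max (v.valuation ℚ x) 1 ↔
      (p : ℤ) ∣ cr x a := by
  rw [← mem_iff_dvd hp hv, ← val_int_lt, cr_cast, map_mul, map_mul]
  have h1 := max_val v x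
  have h2 := max_val v a
  have hx0 : v.valuation ℚ (x.den : ℚ) ≠ 0 := by
    rw [Ne, map_eq_zero]
    exact_mod_cast x.den_nz
  have ha0 : v.valuation ℚ (a.den : ℚ) ≠ 0 := by
    rw [Ne, map_eq_zero]
    exact_mod_cast a.den_nz
  have h3 : 0 < v.valuation ℚ (x.den : ℚ) * v.valuation ℚ (a.den : ℚ) :=
    zero_lt_iff.2 (mul_ne_zero hx0 ha0)
  rw [← mul_lt_mul_iff_of_pos_right h3]
  have h4 : max (v.valuation ℚ a) 1 * max (v.valuation ℚ x) 1 *
      (v.valuation ℚ (x.den : ℚ) * v.valuation ℚ (a.den : ℚ)) = 1 := by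
    calc _ = (max (v.valuation ℚ a) 1 * v.valuation ℚ (a.den : ℚ)) *
          (max (v.valuation ℚ x) 1 * v.valuation ℚ (x.den : ℚ)) := by ac_rfl
      _ = 1 := by rw [h1, h2, mul_one]
  rw [h4]

/-- the sum over the places of `ℚ` at which one of finitely many integers is small -/
theorem finsum_places (N : ℕ) (hN : N ≠ 0) (P : HeightOneSpectrum (𝓞 ℚ) → Prop)
    [DecidablePred P] (hP : ∀ (p : ℕ) (v : HeightOneSpectrum (𝓞 ℚ)), p.Prime →
      (p : 𝓞 ℚ) ∈ v.asIdeal → (P v ↔ p ∣ N)) :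
    (∑ᶠ v : HeightOneSpectrum (𝓞 ℚ),
      if P v then Real.log (Ideal.absNorm v.asIdeal) else 0) = Real.log (rd N) := by
  classical
  have hfin : {v : HeightOneSpectrum (𝓞 ℚ) | P v}.Finite := by
    refine Set.Finite.of_injOn (f := fun v => Ideal.absNorm v.asIdeal)
      (t := (N.primeFactors : Set ℕ)) ?_ ?_ (Finset.finite_toSet _)
    · intro v hv
      obtain ⟨p, hp, hpv⟩ := exists_prime v
      show Ideal.absNorm v.asIdeal ∈ (N.primeFactors : Set ℕ)
      rw [absNorm_eq hp hpv, Finset.mem_coe, Nat.mem_primeFactors]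
      exact ⟨hp, (hP p v hp hpv).1 hv, hN⟩
    · intro v _ w _ hvw
      obtain ⟨p, hp, hpv⟩ := exists_prime v
      obtain ⟨q, hq, hqw⟩ := exists_prime w
      have h1 : Ideal.absNorm v.asIdeal = Ideal.absNorm w.asIdeal := hvw
      rw [absNorm_eq hp hpv, absNorm_eq hq hqw] at h1
      subst h1
      exact (above_iff hp hqw v).1 hpv
  rw [finsum_eq_sum_of_support_subset (s := hfin.toFinset)]
  · rw [Finset.sum_congr rfl (g := fun v : HeightOneSpectrum (𝓞 ℚ) =>
      Real.log (Ideal.absNorm v.asIdeal : ℕ)) (by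
        intro v hv
        exact if_pos ((Set.Finite.mem_toFinset hfin).1 hv))]
    unfold rd
    rw [Nat.cast_prod, Real.log_prod (by
      intro p hp
      exact_mod_cast (Nat.prime_of_mem_primeFactors hp).ne_zero)]
    refine Finset.sum_bij (fun v _ => Ideal.absNorm v.asIdeal) ?_ ?_ ?_ ?_
    · intro v hv
      have hv' : P v := (Set.Finite.mem_toFinset hfin).1 hv
      obtain ⟨p, hp, hpv⟩ := exists_prime v
      rw [absNorm_eq hp hpv, Nat.mem_primeFactors]
      exact ⟨hp, (hP p v hp hpv).1 hv', hN⟩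
    · intro v _ w _ hvw
      obtain ⟨p, hp, hpv⟩ := exists_prime v
      obtain ⟨q, hq, hqw⟩ := exists_prime w
      have h1 : Ideal.absNorm v.asIdeal = Ideal.absNorm w.asIdeal := hvw
      rw [absNorm_eq hp hpv, absNorm_eq hq hqw] at h1
      subst h1
      exact (above_iff hp hqw v).1 hpv
    · intro p hp
      have hp' := Nat.prime_of_mem_primeFactors hp
      obtain ⟨v, hv⟩ := exists_above hp'
      refine ⟨v, ?_, absNorm_eq hp' hv⟩
      rw [Set.Finite.mem_toFinset]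
      exact (hP p v hp' hv).2 (Nat.dvd_of_mem_primeFactors hp)
    · intro v _
      rfl
  · intro v hv
    rw [Function.mem_support] at hv
    rw [Finset.mem_coe, Set.Finite.mem_toFinset]
    by_contra hcon
    exact hv (if_neg hcon)

/-- the product of the determinants -/
def NP {q : ℕ} (a : Fin q → ℚ) (x : ℚ) : ℕ := ∏ j, (cr x (a j)).natAbs

theorem NP_ne {q : ℕ} {a : Fin q → ℚ} {x : ℚ} (hx : ∀ j, x ≠ a j) : NP a x ≠ 0 := by
  unfold NP
  rw [Finset.prod_ne_zero_iff]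
  intro j _
  exact Int.natAbs_ne_zero.2 (cr_ne (hx j))

theorem NP_three (a : Fin 3 → ℚ) (x : ℚ) : NP a x = NN (a 0) (a 1) (a 2) x := by
  unfold NP NN
  rw [Fin.prod_univ_three, Int.natAbs_mul, Int.natAbs_mul]

open Classical in
/-- **the counting function is the logarithm of a radical** -/
theorem counting_rd {q : ℕ} (a : Fin q → ℚ) {x : ℚ} (hx : ∀ j, x ≠ a j) :
    (∑ᶠ v : HeightOneSpectrum (𝓞 ℚ),
      if ∃ j, v.valuation ℚ (x - a j) < max (v.valuation ℚ (a j)) 1 * max (v.valuation ℚ x) 1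
      then Real.log (Ideal.absNorm v.asIdeal) else 0) = Real.log (rd (NP a x)) := by
  refine finsum_places (NP a x) (NP_ne hx) _ ?_
  intro p v hp hv
  unfold NP
  rw [hp.prime.dvd_finsetProd_iff]
  constructor
  · rintro ⟨j, hj⟩
    rw [near_iff hp hv] at hj
    exact ⟨j, Finset.mem_univ _, Int.natCast_dvd.1 hj⟩
  · rintro ⟨j, -, hj⟩
    refine ⟨j, ?_⟩
    rw [near_iff hp hv]
    exact Int.natCast_dvd.2 hj

end Pool.Agent.T2H28.VS
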