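import Pool.Agent.T2H28.VS.Cnt
import Pool.Agent.T2H28.VS.Near
import Pool.Agent.T2H20.AH.Hc

/-!
# The rational numbers with small radicals: the exceptions at all heights
-/

set_option autoImplicit false

namespace Pool.Agent.T2H28.VS

open Finset Filter Topology Pool.Agent.T2H20.AH

/-- the sum of the constants -/
def KK (f : Fin 3 → ℚ) : ℕ := ∑ t : Fin 3 × Fin 3 × Fin 3, Kc (f t.1) (f t.2.1) (f t.2.2)

theorem Kc_le_KK (f : Fin 3 → ℚ) (i j k : Fin 3) : Kc (f i) (f j) (f k) ≤ KK f :=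
  Finset.single_le_sum (f := fun t : Fin 3 × Fin 3 × Fin 3 => Kc (f t.1) (f t.2.1) (f t.2.2))
    (fun _ _ => Nat.zero_le _) (Finset.mem_univ (i, j, k))

theorem KK_pos (f : Fin 3 → ℚ) (hf : Function.Injective f) : 1 ≤ KK f := by
  refine le_trans ?_ (Kc_le_KK f 0 1 2)
  exact Kc_pos (fun h => by simpa using hf h) (fun h => by simpa using hf h)
    (fun h => by simpa using hf h)

attribute [irreducible] KK

theorem rad_eq (n : ℕ) : Pool.Agent.H785R2.ABC.rad n = rd n := rfl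

theorem NN_perm (f : Fin 3 → ℚ) (x : ℚ) {i j k : Fin 3} (hij : i ≠ j) (hjk : j ≠ k)
    (hik : i ≠ k) : NN (f i) (f j) (f k) x = NN (f 0) (f 1) (f 2) x := by
  unfold NN
  simp only [Int.natAbs_mul]
  fin_cases i <;> fin_cases j <;> fin_cases k <;> first
    | exact absurd rfl hij
    | exact absurd rfl hjk
    | exact absurd rfl hik
    | (simp only [Fin.zero_eta, Fin.mk_one, Fin.reduceFinMk] <;> ring)

/-- the comparisons -/
theorem compare (f : Fin 3 → ℚ) (hf : Function.Injective f) {x : ℚ} (hx : ∀ j, x ≠ f j)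
    {i j k : Fin 3} (hij : i ≠ j) (hjk : j ≠ k) (hik : i ≠ k)
    (h : Dom (f i) (f j) (f k) x) {T : ℕ × ℕ} (hT : T = Tr (f i) (f j) (f k) x) :
    (rd (T.1 * T.2 * (T.1 + T.2)) ≤ KK f * rd (NP f x) ∧
      rd (NP f x) ≤ KK f * rd (T.1 * T.2 * (T.1 + T.2))) ∧
    (T.1 + T.2 ≤ KK f * hh x ∧ hh x ≤ KK f * (T.1 + T.2)) ∧
    (0 < T.1 ∧ T.1 ≤ T.2 ∧ Nat.Coprime T.1 T.2) := by
  have h1 : f i ≠ f j := fun e => hij (hf e)
  have h2 : f j ≠ f k := fun e => hjk (hf e)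
  have h3 : f i ≠ f k := fun e => hik (hf e)
  obtain ⟨r1, r2⟩ := rd_total h1 h2 h3 (hx i) (hx j) (hx k) h
  obtain ⟨s1, s2⟩ := size_le h1 h2 h3 h
  obtain ⟨-, -, -, -, -, p1, p2, p3⟩ := dom_rep h
  rw [NN_perm f x hij hjk hik, ← NP_three] at r1 r2
  have hL : Lam (f i) (f j) (f k) ≤ KK f := (Lam_le_Kc _ _ _).trans (Kc_le_KK f i j k)
  have hK := Kc_le_KK f i j k
  rw [hT]
  exact ⟨⟨r1.trans (Nat.mul_le_mul_right _ hL), r2.trans (Nat.mul_le_mul_right _ hL)⟩,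
    ⟨s1.trans (Nat.mul_le_mul_right _ hK), s2.trans (Nat.mul_le_mul_right _ hK)⟩, p1, p2, p3⟩

/-- the exceptions -/
def VE (θ : ℝ) (f : Fin 3 → ℚ) (X : ℝ) : Set ℚ :=
  {x | (∀ j, x ≠ f j) ∧ (rd (NP f x) : ℝ) ≤ X ∧ (rd (NP f x) : ℝ) < (hh x : ℝ) ^ θ}

theorem hh_pos (x : ℚ) : 1 ≤ hh x := le_trans x.pos (le_max_right _ _)

/-- **upper bound** -/
theorem VE_upper (θ : ℝ) (hθ : 0 < θ) (f : Fin 3 → ℚ) (hf : Function.Injective f) (ε : ℝ)
    (hε : 0 < ε) : ∃ C : ℝ, 0 < C ∧ ∀ X : ℝ, 1 ≤ X → (VE θ f X).Finite ∧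
      ((VE θ f X).ncard : ℝ) ≤ C * X ^ (max (4 / 7) (1 - 1 / θ) + ε) := by
  obtain ⟨M, hM⟩ : ∃ M : ℝ, M = 1 / θ := ⟨_, rfl⟩
  have hM0 : 0 < M := by rw [hM]; positivity
  obtain ⟨K, hK⟩ : ∃ K : ℝ, K = (KK f : ℝ) := ⟨_, rfl⟩
  have hK1 : 1 ≤ K := by rw [hK]; exact_mod_cast KK_pos f hf
  have hK0 : 0 < K := by linarith
  obtain ⟨κ, hκ⟩ : ∃ κ : ℝ, κ = K ^ (-(M + 1)) := ⟨_, rfl⟩
  have hκ0 : 0 < κ := by rw [hκ]; positivity
  obtain ⟨s, hs⟩ : ∃ s : ℝ, s = max (4 / 7) (1 - M) + ε := ⟨_, rfl⟩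
  obtain ⟨C, hC, h⟩ := profC_upper κ M ε hκ0 hM0 hε
  rw [← hs] at h
  refine ⟨27 * (C * K ^ s), by positivity, fun X hX => ?_⟩
  have hX0 : 0 < X := by linarith
  have hKX : 1 ≤ K * X := by nlinarith
  have key := upper f hf (VE θ f X) (fun x hx => hx.1) (ExcC κ M (K * X))
    (excC_finite κ M hKX) (by
      rintro x ⟨hx, hr, hlt⟩ i j k hij hjk hik hD
      obtain ⟨T, hT⟩ : ∃ T, T = Tr (f i) (f j) (f k) x := ⟨_, rfl⟩
      obtain ⟨⟨c1, c2⟩, ⟨c3, c4⟩, c5, c6, c7⟩ := compare f hf hx hij hjk hik hD hT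
      rw [← hT]
      obtain ⟨ρ, hρ⟩ : ∃ ρ : ℝ, ρ = (rd (NP f x) : ℝ) := ⟨_, rfl⟩
      obtain ⟨r, hr'⟩ : ∃ r : ℝ, r = (rd (T.1 * T.2 * (T.1 + T.2)) : ℝ) := ⟨_, rfl⟩
      obtain ⟨H, hH⟩ : ∃ H : ℝ, H = (hh x : ℝ) := ⟨_, rfl⟩
      obtain ⟨c, hc⟩ : ∃ c : ℝ, c = ((T.1 + T.2 : ℕ) : ℝ) := ⟨_, rfl⟩
      have d1 : r ≤ K * ρ := by rw [hr', hK, hρ]; exact_mod_cast c1
      have d4 : H ≤ K * c := by rw [hH, hK, hc]; exact_mod_cast c4
      have hρ1 : 1 ≤ ρ := by rw [hρ]; exact_mod_cast rd_pos _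
      have hr1 : 1 ≤ r := by rw [hr']; exact_mod_cast rd_pos _
      have hH1 : 1 ≤ H := by rw [hH]; exact_mod_cast hh_pos x
      rw [← hρ] at hr hlt
      rw [← hH] at hlt
      refine ⟨⟨c5, c6, c7⟩, ?_, ?_⟩
      · rw [rad_eq, ← hr']
        exact d1.trans (mul_le_mul_of_nonneg_left hr hK0.le)
      · rw [rad_eq, ← hr', ← hc]
        have e1 : ρ ^ M ≤ H := by
          have h1 : ρ ^ M ≤ (H ^ θ) ^ M :=
            Real.rpow_le_rpow (by linarith) hlt.le hM0.le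
          have h2 : θ * M = 1 := by rw [hM]; exact mul_one_div_cancel hθ.ne'
          rwa [← Real.rpow_mul (by linarith), h2, Real.rpow_one] at h1
        have e2 : (r / K) ^ M ≤ ρ ^ M := by
          refine Real.rpow_le_rpow (by positivity) ?_ hM0.le
          rw [div_le_iff₀ hK0]
          linarith
        have e3 : κ * r ^ M = (r / K) ^ M / K := by
          rw [hκ, Real.div_rpow (by linarith) hK0.le, Real.rpow_neg hK0.le,
            Real.rpow_add hK0, Real.rpow_one]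
          field_simp
        rw [e3, div_le_iff₀ hK0]
        linarith)
  refine ⟨key.1, ?_⟩
  have h1 : ((VE θ f X).ncard : ℝ) ≤ 27 * ((ExcC κ M (K * X)).ncard : ℝ) := by
    exact_mod_cast key.2
  have h2 := h (K * X) hKX
  rw [Real.mul_rpow hK0.le hX0.le] at h2
  rw [← hM, ← hs]
  calc ((VE θ f X).ncard : ℝ) ≤ 27 * ((ExcC κ M (K * X)).ncard : ℝ) := h1
    _ ≤ 27 * (C * (K ^ s * X ^ s)) := by linarith
    _ = _ := by ring

/-- the lower bound, for small `ε` -/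
theorem VE_lower' (θ : ℝ) (hθ : 2 < θ) (hθ3 : θ < 3) (f : Fin 3 → ℚ) (hf : Function.Injective f)
    (ε : ℝ) (hε : 0 < ε) (hε1 : ε ≤ 1 / 4) : ∃ X₀ : ℝ, ∀ X : ℝ, X₀ ≤ X →
      X ^ (1 - 1 / θ - ε) ≤ ((VE θ f X).ncard : ℝ) := by
  obtain ⟨M, hM⟩ : ∃ M : ℝ, M = 1 / θ := ⟨_, rfl⟩
  have hθ0 : 0 < θ := by linarith
  have hM0 : 0 < M := by rw [hM]; positivity
  have hM1 : 1 / 3 < M := by rw [hM]; exact one_div_lt_one_div_of_lt hθ0 hθ3
  have hM2 : M < 1 / 2 := by rw [hM]; exact one_div_lt_one_div_of_lt (by norm_num) hθ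
  obtain ⟨K, hK⟩ : ∃ K : ℝ, K = (KK f : ℝ) := ⟨_, rfl⟩
  have hK1 : 1 ≤ K := by rw [hK]; exact_mod_cast KK_pos f hf
  have hK0 : 0 < K := by linarith
  obtain ⟨κ, hκ⟩ : ∃ κ : ℝ, κ = 2 * K ^ (M + 1) := ⟨_, rfl⟩
  have hκ0 : 0 < κ := by rw [hκ]; positivity
  obtain ⟨X₀, h⟩ := profC_lower (ε := ε / 2) hκ0 hM1 hM2 (by positivity)
  obtain ⟨s, hs⟩ : ∃ s : ℝ, s = 1 - M - ε / 2 := ⟨_, rfl⟩
  rw [← hs] at h
  obtain ⟨Cu, -, hu⟩ := VE_upper θ hθ0 f hf 1 one_pos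
  have t5 : Tendsto (fun X : ℝ => X ^ (ε / 2)) atTop atTop :=
    tendsto_rpow_atTop (by positivity)
  obtain ⟨X₁, hX₁⟩ := eventually_atTop.1 (t5.eventually (eventually_ge_atTop (2 * K ^ s)))
  refine ⟨max 1 (max X₁ (K * X₀)), fun X hX => ?_⟩
  have hX1 : 1 ≤ X := (le_max_left _ _).trans hX
  have hX2 : X₁ ≤ X := ((le_max_left _ _).trans (le_max_right _ _)).trans hX
  have hX3 : K * X₀ ≤ X := ((le_max_right _ _).trans (le_max_right _ _)).trans hX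
  have hX0 : 0 < X := by linarith
  have h1 := h (X / K) (by rw [le_div_iff₀ hK0]; linarith)
  have h01 : f 0 ≠ f 1 := fun e => by simpa using hf e
  have h12 : f 1 ≠ f 2 := fun e => by simpa using hf e
  have h02 : f 0 ≠ f 2 := fun e => by simpa using hf e
  have key := lower h01 h12 h02 (VE θ f X) (hu X hX1).1 (ExcC κ M (X / K))
    (fun q hq => hq.1) (by
      intro x hx0 hx1 hx2 hD hT
      have hx : ∀ j, x ≠ f j := by
        intro j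
        fin_cases j
        · exact hx0
        · exact hx1
        · exact hx2
      obtain ⟨T, hTd⟩ : ∃ T, T = Tr (f 0) (f 1) (f 2) x := ⟨_, rfl⟩
      obtain ⟨⟨c1, c2⟩, ⟨c3, c4⟩, c5, c6, c7⟩ :=
        compare f hf hx (by decide) (by decide) (by decide) hD hTd
      rw [← hTd] at hT
      obtain ⟨-, hT2, hT3⟩ := hT
      rw [rad_eq] at hT2 hT3
      obtain ⟨ρ, hρ⟩ : ∃ ρ : ℝ, ρ = (rd (NP f x) : ℝ) := ⟨_, rfl⟩
      obtain ⟨r, hr'⟩ : ∃ r : ℝ, r = (rd (T.1 * T.2 * (T.1 + T.2)) : ℝ) := ⟨_, rfl⟩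
      obtain ⟨H, hH⟩ : ∃ H : ℝ, H = (hh x : ℝ) := ⟨_, rfl⟩
      obtain ⟨c, hc⟩ : ∃ c : ℝ, c = ((T.1 + T.2 : ℕ) : ℝ) := ⟨_, rfl⟩
      have d2 : ρ ≤ K * r := by rw [hr', hK, hρ]; exact_mod_cast c2
      have d3 : c ≤ K * H := by rw [hH, hK, hc]; exact_mod_cast c3
      have hρ1 : 1 ≤ ρ := by rw [hρ]; exact_mod_cast rd_pos _
      have hr1 : 1 ≤ r := by rw [hr']; exact_mod_cast rd_pos _
      have hH1 : 1 ≤ H := by rw [hH]; exact_mod_cast hh_pos x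
      rw [← hr'] at hT2 hT3
      rw [← hc] at hT3
      refine ⟨hx, ?_, ?_⟩
      · rw [← hρ]
        rw [le_div_iff₀ hK0] at hT2
        linarith
      · rw [← hρ, ← hH]
        have e2 : ρ ^ M ≤ (K * r) ^ M := Real.rpow_le_rpow (by linarith) d2 hM0.le
        rw [Real.mul_rpow hK0.le (by linarith)] at e2
        have e3 : 2 * K * ρ ^ M ≤ K * H := by
          calc 2 * K * ρ ^ M ≤ 2 * K * (K ^ M * r ^ M) :=
                mul_le_mul_of_nonneg_left e2 (by positivity)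
            _ = κ * r ^ M := by
                rw [hκ, Real.rpow_add hK0, Real.rpow_one]
                ring
            _ ≤ K * H := hT3.trans d3
        have e4 : 0 < ρ ^ M := by positivity
        have e5 : ρ ^ M < H := by
          have e6 : K * (2 * ρ ^ M) ≤ K * H := by linarith
          have e7 := le_of_mul_le_mul_left e6 hK0
          linarith
        have e6 : (ρ ^ M) ^ θ < H ^ θ := Real.rpow_lt_rpow e4.le e5 hθ0
        rwa [← Real.rpow_mul (by linarith), hM, one_div_mul_cancel hθ0.ne',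
          Real.rpow_one] at e6)
  have h2 : ((ExcC κ M (X / K)).ncard : ℝ) ≤ ((VE θ f X).ncard : ℝ) + 1 := by
    exact_mod_cast key.2
  obtain ⟨Y, hY⟩ : ∃ Y : ℝ, Y = X ^ (1 - M - ε) := ⟨_, rfl⟩
  have hY1 : 1 ≤ Y := by
    rw [hY]
    exact Real.one_le_rpow hX1 (by linarith)
  have e1 : X ^ s = X ^ (ε / 2) * Y := by
    rw [hY, ← Real.rpow_add hX0]
    congr 1
    rw [hs]
    ring
  have e2 : 2 * Y ≤ (X / K) ^ s := by
    rw [Real.div_rpow hX0.le hK0.le, le_div_iff₀ (by positivity), e1]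
    have e3 := mul_le_mul_of_nonneg_right (hX₁ X hX2) (by linarith : (0 : ℝ) ≤ Y)
    linarith
  rw [← hM, ← hY]
  linarith

/-- **lower bound** -/
theorem VE_lower (θ : ℝ) (hθ : 2 < θ) (hθ3 : θ < 3) (f : Fin 3 → ℚ) (hf : Function.Injective f)
    (ε : ℝ) (hε : 0 < ε) : ∃ X₀ : ℝ, ∀ X : ℝ, X₀ ≤ X →
      X ^ (1 - 1 / θ - ε) ≤ ((VE θ f X).ncard : ℝ) := by
  obtain ⟨X₀, h⟩ := VE_lower' θ hθ hθ3 f hf (min ε (1 / 4)) (lt_min hε (by norm_num))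
    (min_le_right _ _)
  refine ⟨max 1 X₀, fun X hX => ?_⟩
  refine le_trans ?_ (h X ((le_max_right _ _).trans hX))
  refine Real.rpow_le_rpow_of_exponent_le ((le_max_left _ _).trans hX) ?_
  have := min_le_left ε (1 / 4)
  linarith

/-- **the exact exponent** -/
theorem VE_tendsto (θ : ℝ) (hθ : 7 / 3 ≤ θ) (hθ3 : θ < 3) (f : Fin 3 → ℚ)
    (hf : Function.Injective f) :
    Tendsto (fun X : ℝ => Real.log ((VE θ f X).ncard : ℝ) / Real.log X) atTop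
      (𝓝 (1 - 1 / θ)) := by
  refine tendsto_exponent (fun ε hε => ?_) fun ε hε =>
    VE_lower θ (by linarith) hθ3 f hf ε hε
  obtain ⟨C, hC, h⟩ := VE_upper θ (by linarith) f hf ε hε
  refine ⟨C, hC, fun X hX => ?_⟩
  have h1 := (h X hX).2
  have h2 : 1 / θ ≤ 3 / 7 := by
    rw [div_le_iff₀ (by linarith)]
    linarith
  rwa [max_eq_right (by linarith : (4 : ℝ) / 7 ≤ 1 - 1 / θ)] at h1

end Pool.Agent.T2H28.VS
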