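import Pool.Agent.T2H28.VS.Prof
import Pool.Agent.Results.MP_2ec8a3_nt.SquareRootAllHeights

/-!
# The rational numbers with very small radicals, at all heights
-/

set_option autoImplicit false

namespace Pool.Agent.T2H28.VS

open Finset Pool.Agent.Results.MP_2ec8a3_nt.SquareRootAllHeights

theorem finite_hh (N : ℕ) : {x : ℚ | hh x ≤ N}.Finite := by
  refine Set.Finite.of_injOn (f := fun x : ℚ => ((x.num, x.den) : ℤ × ℕ))
    (t := ((Finset.Icc (-(N : ℤ)) N ×ˢ Finset.range (N + 1) : Finset (ℤ × ℕ)) : Set (ℤ × ℕ)))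
    ?_ ?_ (Finset.finite_toSet _)
  · intro x hx
    have h1 : x.num.natAbs ≤ N := le_trans (le_max_left _ _) hx
    have h2 : x.den ≤ N := le_trans (le_max_right _ _) hx
    simp only [Finset.coe_product, Set.mem_prod, Finset.mem_coe, Finset.mem_Icc,
      Finset.mem_range]
    omega
  · intro x _ y _ h
    simp only [Prod.mk.injEq] at h
    exact Rat.ext h.1 h.2

/-- the members of the triple and the determinants -/
theorem member_le (f : Fin 3 → ℚ) (hf : Function.Injective f) {x : ℚ} (hx : ∀ j, x ≠ f j)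
    {i j k : Fin 3} (hij : i ≠ j) (hjk : j ≠ k) (hik : i ≠ k)
    (h : Dom (f i) (f j) (f k) x) (s : Fin 3) :
    radical (member (Tr (f i) (f j) (f k) x) s) ≤ KK f * rd (cr x (f (![i, j, k] s))).natAbs := by
  have h1 : f i ≠ f j := fun e => hij (hf e)
  have h2 : f j ≠ f k := fun e => hjk (hf e)
  have h3 : f i ≠ f k := fun e => hik (hf e)
  have hL : Lam (f i) (f j) (f k) ≤ KK f := (Lam_le_Kc _ _ _).trans (Kc_le_KK f i j k)
  fin_cases s
  · exact (rd_first h1 h2 h3 (hx i) h).1.trans (Nat.mul_le_mul_right _ hL)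
  · exact (rd_second h1 h2 h3 (hx j) h).1.trans (Nat.mul_le_mul_right _ hL)
  · exact (rd_third h1 h2 h3 (hx k) h).1.trans (Nat.mul_le_mul_right _ hL)

/-- every index is one of three different ones -/
theorem exists_index {i j k : Fin 3} (hij : i ≠ j) (hjk : j ≠ k) (hik : i ≠ k) (l : Fin 3) :
    ∃ s, ![i, j, k] s = l := by
  revert i j k l
  decide

/-- the passage from triples to rational numbers -/
theorem transfer (f : Fin 3 → ℚ) (hf : Function.Injective f) (M : ℕ) : ∃ θ : ℝ, ∃ N : ℕ,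
    0 < θ ∧ ∀ θ' : ℝ, θ' ≤ θ → ∀ X : ℝ, 1 ≤ X → ∀ P : ℚ → Prop, ∀ F : Set (ℕ × ℕ),
      (∀ x : ℚ, (∀ j, x ≠ f j) → P x → ∀ i j k : Fin 3, i ≠ j → j ≠ k → i ≠ k →
        Dom (f i) (f j) (f k) x → Tr (f i) (f j) (f k) x ∈ exceptions M ⌊(KK f : ℝ) * X⌋₊ →
        Tr (f i) (f j) (f k) x ∈ F) → F.Finite →
      {x | x ∈ VE θ' f X ∧ P x}.Finite ∧
        {x | x ∈ VE θ' f X ∧ P x}.ncard ≤ N + 27 * F.ncard := by
  classical
  obtain ⟨K, hK⟩ : ∃ K : ℝ, K = (KK f : ℝ) := ⟨_, rfl⟩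
  have hK1 : 1 ≤ K := by rw [hK]; exact_mod_cast KK_pos f hf
  have hK0 : 0 < K := by linarith
  obtain ⟨θ, hθ⟩ : ∃ θ : ℝ, θ = 1 / (2 * ((M : ℝ) + 1)) := ⟨_, rfl⟩
  have hθ0 : 0 < θ := by rw [hθ]; positivity
  obtain ⟨H0, hH0⟩ : ∃ H0 : ℕ, H0 = ⌈K ^ (2 * (M + 2))⌉₊ := ⟨_, rfl⟩
  refine ⟨θ, {x : ℚ | hh x ≤ H0}.ncard, hθ0, fun θ' hθ' X hX P F hF hFf => ?_⟩
  obtain ⟨E, hE⟩ : ∃ E : Set ℚ, E = {x | (x ∈ VE θ' f X ∧ P x) ∧ ¬ hh x ≤ H0} := ⟨_, rfl⟩
  have key := upper f hf E (by rintro x hx; rw [hE] at hx; exact hx.1.1.1) F hFf (by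
    intro x hx i j k hij hjk hik hD
    rw [hE] at hx
    obtain ⟨⟨⟨hxf, hr, hlt⟩, hP⟩, hH⟩ := hx
    refine hF x hxf hP i j k hij hjk hik hD ?_
    obtain ⟨T, hT⟩ : ∃ T, T = Tr (f i) (f j) (f k) x := ⟨_, rfl⟩
    obtain ⟨⟨c1, c2⟩, ⟨c3, c4⟩, c5, c6, c7⟩ := compare f hf hxf hij hjk hik hD hT
    rw [← hT]
    obtain ⟨ρ, hρ⟩ : ∃ ρ : ℝ, ρ = (rd (NP f x) : ℝ) := ⟨_, rfl⟩
    obtain ⟨H, hHd⟩ : ∃ H : ℝ, H = (hh x : ℝ) := ⟨_, rfl⟩
    have d1 : (rd (T.1 * T.2 * (T.1 + T.2)) : ℝ) ≤ K * ρ := by rw [hK, hρ]; exact_mod_cast c1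
    have d4 : H ≤ K * ((T.1 + T.2 : ℕ) : ℝ) := by rw [hHd, hK]; exact_mod_cast c4
    have hρ1 : 1 ≤ ρ := by rw [hρ]; exact_mod_cast rd_pos _
    have hH1 : 1 ≤ H := by rw [hHd]; exact_mod_cast hh_pos x
    rw [← hρ] at hr hlt
    rw [← hHd] at hlt
    have hlt' : ρ < H ^ θ := lt_of_lt_of_le hlt (Real.rpow_le_rpow_of_exponent_le hH1 hθ')
    refine ⟨⟨c5, lt_of_lt_of_le c5 c6, c7⟩, ?_, ?_⟩
    · show rd (T.1 * T.2 * (T.1 + T.2)) ≤ _
      apply Nat.le_floor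
      rw [← hK]
      exact d1.trans (mul_le_mul_of_nonneg_left hr hK0.le)
    · show rd (T.1 * T.2 * (T.1 + T.2)) ^ M ≤ T.1 + T.2
      have hbig : K ^ (2 * (M + 2)) ≤ H := by
        have h1 : H0 ≤ hh x := by omega
        calc K ^ (2 * (M + 2)) ≤ (H0 : ℝ) := by rw [hH0]; exact Nat.le_ceil _
          _ ≤ H := by rw [hHd]; exact_mod_cast h1
      have hsq : K ^ (M + 2) ≤ H ^ (1 / 2 : ℝ) := by
        have h1 : (K ^ (M + 2)) ^ (2 : ℕ) ≤ H := by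
          rw [← pow_mul]
          rwa [mul_comm] at hbig
        have h2 : ((K ^ (M + 2)) ^ (2 : ℕ)) ^ (1 / 2 : ℝ) ≤ H ^ (1 / 2 : ℝ) :=
          Real.rpow_le_rpow (by positivity) h1 (by norm_num)
        rwa [← Real.rpow_natCast, ← Real.rpow_mul (by positivity), show
          ((2 : ℕ) : ℝ) * (1 / 2) = 1 by norm_num, Real.rpow_one] at h2
      have h3 : ρ ^ M ≤ H ^ (1 / 2 : ℝ) := by
        calc ρ ^ M ≤ (H ^ θ) ^ M := pow_le_pow_left₀ (by linarith) hlt'.le M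
          _ = H ^ (θ * M) := by
              rw [← Real.rpow_natCast, ← Real.rpow_mul (by linarith)]
          _ ≤ H ^ (1 / 2 : ℝ) := by
              refine Real.rpow_le_rpow_of_exponent_le hH1 ?_
              rw [hθ, div_mul_eq_mul_div, one_mul, div_le_div_iff₀ (by positivity) (by norm_num)]
              linarith
      have h4 : (rd (T.1 * T.2 * (T.1 + T.2)) : ℝ) ^ M ≤ ((T.1 + T.2 : ℕ) : ℝ) := by
        have h5 : K * (rd (T.1 * T.2 * (T.1 + T.2)) : ℝ) ^ M ≤ K * ((T.1 + T.2 : ℕ) : ℝ) := by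
          calc K * (rd (T.1 * T.2 * (T.1 + T.2)) : ℝ) ^ M ≤ K * (K * ρ) ^ M :=
                mul_le_mul_of_nonneg_left (pow_le_pow_left₀ (Nat.cast_nonneg _) d1 M) hK0.le
            _ = K ^ (M + 1) * ρ ^ M := by rw [mul_pow]; ring
            _ ≤ K ^ (M + 2) * ρ ^ M := by
                refine mul_le_mul_of_nonneg_right ?_ (by positivity)
                exact pow_le_pow_right₀ hK1 (by omega)
            _ ≤ H ^ (1 / 2 : ℝ) * H ^ (1 / 2 : ℝ) :=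
                mul_le_mul hsq h3 (by positivity) (by positivity)
            _ = H := by
                rw [← Real.rpow_add (by linarith)]
                norm_num
            _ ≤ _ := d4
        exact le_of_mul_le_mul_left h5 hK0
      exact_mod_cast h4)
  have hsub : {x | x ∈ VE θ' f X ∧ P x} ⊆ {x : ℚ | hh x ≤ H0} ∪ E := by
    intro x hx
    by_cases h : hh x ≤ H0
    · exact Or.inl h
    · right
      rw [hE]
      exact ⟨hx, h⟩
  have hfin := (finite_hh H0).union key.1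
  refine ⟨hfin.subset hsub, ?_⟩
  calc {x | x ∈ VE θ' f X ∧ P x}.ncard ≤ ({x : ℚ | hh x ≤ H0} ∪ E).ncard :=
        Set.ncard_le_ncard hsub hfin
    _ ≤ {x : ℚ | hh x ≤ H0}.ncard + E.ncard := Set.ncard_union_le _ _
    _ ≤ _ := Nat.add_le_add_left key.2 _

/-- **the square root bound at all heights** -/
theorem sq_all (f : Fin 3 → ℚ) (hf : Function.Injective f) (ε : ℝ) (hε : 0 < ε) :
    ∃ θ C : ℝ, 0 < θ ∧ 0 < C ∧ ∀ θ' : ℝ, θ' ≤ θ → ∀ X : ℝ, 1 ≤ X → (VE θ' f X).Finite ∧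
      ((VE θ' f X).ncard : ℝ) ≤ C * X ^ (1 / 3 + ε) ∧
      (∀ B : ℝ, 1 ≤ B → ({x | x ∈ VE θ' f X ∧ ∃ i, (rd (cr x (f i)).natAbs : ℝ) ≤ B}.ncard : ℝ) ≤
        C * X ^ ε * (B * X) ^ ((1 : ℝ) / 4)) ∧
      (∀ R₁ R₂ : ℝ, 1 ≤ R₁ → 1 ≤ R₂ →
        ({x | x ∈ VE θ' f X ∧ ∃ i j, i ≠ j ∧ (rd (cr x (f i)).natAbs : ℝ) ≤ R₁ ∧
          (rd (cr x (f j)).natAbs : ℝ) ≤ R₂}.ncard : ℝ) ≤ C * X ^ ε * Real.sqrt (R₁ * R₂)) := by
  classical
  obtain ⟨M, C, hC, h⟩ := result ε hε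
  obtain ⟨θ, N, hθ, ht⟩ := transfer f hf M
  obtain ⟨K, hK⟩ : ∃ K : ℝ, K = (KK f : ℝ) := ⟨_, rfl⟩
  have hK1 : 1 ≤ K := by rw [hK]; exact_mod_cast KK_pos f hf
  have hK0 : 0 < K := by linarith
  rw [← hK] at ht
  have hKp : (1 : ℝ) ≤ K ^ (1 / 3 + ε) := Real.one_le_rpow hK1 (by positivity)
  obtain ⟨D, hD⟩ : ∃ D : ℝ, D = N + 27 * (C * (K ^ (1 / 3 + ε) + K ^ ε * (K * K) ^ ((1 : ℝ) / 4) +
    K ^ ε * K)) := ⟨_, rfl⟩
  have p1 : 0 < K ^ (1 / 3 + ε) := by positivity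
  have p2 : 0 < K ^ ε * (K * K) ^ ((1 : ℝ) / 4) := by positivity
  have p3 : 0 < K ^ ε * K := by positivity
  have hN0 : (0 : ℝ) ≤ N := Nat.cast_nonneg _
  have hD0 : 0 < D := by rw [hD]; positivity
  -- a common form of the three bounds
  have fin : ∀ n m : ℕ, ∀ κ Y : ℝ, n ≤ N + 27 * m → 1 ≤ Y → (m : ℝ) ≤ C * (κ * Y) →
      N + 27 * (C * κ) ≤ D → (n : ℝ) ≤ D * Y := by
    intro n m κ Y h1 h2 h3 h4
    have h5 : (n : ℝ) ≤ N + 27 * m := by exact_mod_cast h1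
    have h6 : (N : ℝ) ≤ N * Y := le_mul_of_one_le_right hN0 h2
    calc (n : ℝ) ≤ N * Y + 27 * (C * (κ * Y)) := by linarith
      _ = (N + 27 * (C * κ)) * Y := by ring
      _ ≤ D * Y := mul_le_mul_of_nonneg_right h4 (by linarith)
  refine ⟨θ, D, hθ, hD0, fun θ' hθ' X hX => ?_⟩
  have hX0 : 0 < X := by linarith
  obtain ⟨Z, hZ⟩ : ∃ Z : ℕ, Z = ⌊K * X⌋₊ := ⟨_, rfl⟩
  have hKX : 1 ≤ K * X := by nlinarith
  have hZ1 : 1 ≤ Z := by rw [hZ]; exact Nat.le_floor (by exact_mod_cast hKX)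
  have hZX : (Z : ℝ) ≤ K * X := by rw [hZ]; exact Nat.floor_le (by positivity)
  have ht' := ht θ' hθ' X hX
  rw [← hZ] at ht'
  obtain ⟨g1, g2, g3, g4⟩ := h Z hZ1
  have hall := ht' (fun _ => True) (exceptions M Z) (fun x _ _ i j k _ _ _ _ h => h) g1
  have hset : {x | x ∈ VE θ' f X ∧ True} = VE θ' f X := by
    ext x
    exact ⟨fun h => h.1, fun h => ⟨h, trivial⟩⟩
  rw [hset] at hall
  refine ⟨hall.1, ?_, ?_, ?_⟩
  · refine fin _ _ (K ^ (1 / 3 + ε)) (X ^ (1 / 3 + ε)) hall.2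
      (Real.one_le_rpow hX (by positivity)) ?_ ?_
    · refine g2.trans (mul_le_mul_of_nonneg_left ?_ hC.le)
      rw [← Real.mul_rpow hK0.le hX0.le]
      exact Real.rpow_le_rpow (Nat.cast_nonneg _) hZX (by positivity)
    · rw [hD]
      have : C * K ^ (1 / 3 + ε) ≤ C * (K ^ (1 / 3 + ε) + K ^ ε * (K * K) ^ ((1 : ℝ) / 4) +
        K ^ ε * K) := mul_le_mul_of_nonneg_left (by linarith) hC.le
      linarith
  · intro B hB
    obtain ⟨b, hb⟩ : ∃ b : ℕ, b = ⌊K * B⌋₊ := ⟨_, rfl⟩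
    have hKB : 1 ≤ K * B := by nlinarith
    have hb1 : 1 ≤ b := by rw [hb]; exact Nat.le_floor (by exact_mod_cast hKB)
    have hbB : (b : ℝ) ≤ K * B := by rw [hb]; exact Nat.floor_le (by positivity)
    have hr := ht' (fun x => ∃ i, (rd (cr x (f i)).natAbs : ℝ) ≤ B)
      {q | q ∈ exceptions M Z ∧ ∃ i, radical (member q i) ≤ b} (by
        rintro x hx ⟨l, hl⟩ i j k hij hjk hik hDm hmem
        refine ⟨hmem, ?_⟩
        obtain ⟨s, hs⟩ := exists_index hij hjk hik l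
        refine ⟨s, ?_⟩
        have h1 := member_le f hf hx hij hjk hik hDm s
        rw [hs] at h1
        rw [hb]
        apply Nat.le_floor
        have h2 : ((radical (member (Tr (f i) (f j) (f k) x) s) : ℕ) : ℝ) ≤
            K * rd (cr x (f l)).natAbs := by rw [hK]; exact_mod_cast h1
        exact h2.trans (mul_le_mul_of_nonneg_left hl hK0.le))
      (g1.subset fun q hq => hq.1)
    have hY : (1 : ℝ) ≤ X ^ ε * (B * X) ^ ((1 : ℝ) / 4) :=
      one_le_mul_of_one_le_of_one_le (Real.one_le_rpow hX hε.le)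
        (Real.one_le_rpow (by nlinarith) (by norm_num))
    rw [mul_assoc]
    refine fin _ _ (K ^ ε * (K * K) ^ ((1 : ℝ) / 4)) (X ^ ε * (B * X) ^ ((1 : ℝ) / 4)) hr.2 hY
      ?_ ?_
    · refine (g3 b hb1).trans ?_
      rw [mul_assoc]
      refine mul_le_mul_of_nonneg_left ?_ hC.le
      have e1 : (Z : ℝ) ^ ε ≤ K ^ ε * X ^ ε := by
        rw [← Real.mul_rpow hK0.le hX0.le]
        exact Real.rpow_le_rpow (Nat.cast_nonneg _) hZX hε.le
      have e2 : ((b : ℝ) * Z) ^ ((1 : ℝ) / 4) ≤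
          (K * K) ^ ((1 : ℝ) / 4) * (B * X) ^ ((1 : ℝ) / 4) := by
        rw [← Real.mul_rpow (by positivity) (by positivity)]
        refine Real.rpow_le_rpow (by positivity) ?_ (by norm_num)
        calc (b : ℝ) * Z ≤ (K * B) * (K * X) :=
              mul_le_mul hbB hZX (Nat.cast_nonneg _) (by positivity)
          _ = _ := by ring
      calc (Z : ℝ) ^ ε * ((b : ℝ) * Z) ^ ((1 : ℝ) / 4) ≤ (K ^ ε * X ^ ε) *
            ((K * K) ^ ((1 : ℝ) / 4) * (B * X) ^ ((1 : ℝ) / 4)) :=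
            mul_le_mul e1 e2 (by positivity) (by positivity)
        _ = _ := by ring
    · rw [hD]
      have : C * (K ^ ε * (K * K) ^ ((1 : ℝ) / 4)) ≤ C * (K ^ (1 / 3 + ε) +
        K ^ ε * (K * K) ^ ((1 : ℝ) / 4) + K ^ ε * K) := mul_le_mul_of_nonneg_left (by linarith) hC.le
      linarith
  · intro R₁ R₂ hR₁ hR₂
    obtain ⟨b, hb⟩ : ∃ b : ℕ, b = ⌊K * R₁⌋₊ := ⟨_, rfl⟩
    have hKB : 1 ≤ K * R₁ := by nlinarith
    have hb1 : 1 ≤ b := by rw [hb]; exact Nat.le_floor (by exact_mod_cast hKB)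
    have hbB : (b : ℝ) ≤ K * R₁ := by rw [hb]; exact Nat.floor_le (by positivity)
    obtain ⟨c, hc⟩ : ∃ c : ℕ, c = ⌊K * R₂⌋₊ := ⟨_, rfl⟩
    have hKC : 1 ≤ K * R₂ := by nlinarith
    have hc1 : 1 ≤ c := by rw [hc]; exact Nat.le_floor (by exact_mod_cast hKC)
    have hcB : (c : ℝ) ≤ K * R₂ := by rw [hc]; exact Nat.floor_le (by positivity)
    have hr := ht' (fun x => ∃ i j, i ≠ j ∧ (rd (cr x (f i)).natAbs : ℝ) ≤ R₁ ∧
          (rd (cr x (f j)).natAbs : ℝ) ≤ R₂)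
      {q | q ∈ exceptions M Z ∧ ∃ i j, i ≠ j ∧ radical (member q i) ≤ b ∧
        radical (member q j) ≤ c} (by
        rintro x hx ⟨l, m, hlm, hl, hm⟩ i j k hij hjk hik hDm hmem
        refine ⟨hmem, ?_⟩
        obtain ⟨s, hs⟩ := exists_index hij hjk hik l
        obtain ⟨t, ht⟩ := exists_index hij hjk hik m
        refine ⟨s, t, fun e => hlm (by rw [← hs, ← ht, e]), ?_, ?_⟩
        · have h1 := member_le f hf hx hij hjk hik hDm s
          rw [hs] at h1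
          rw [hb]
          apply Nat.le_floor
          have h2 : ((radical (member (Tr (f i) (f j) (f k) x) s) : ℕ) : ℝ) ≤
              K * rd (cr x (f l)).natAbs := by rw [hK]; exact_mod_cast h1
          exact h2.trans (mul_le_mul_of_nonneg_left hl hK0.le)
        · have h1 := member_le f hf hx hij hjk hik hDm t
          rw [ht] at h1
          rw [hc]
          apply Nat.le_floor
          have h2 : ((radical (member (Tr (f i) (f j) (f k) x) t) : ℕ) : ℝ) ≤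
              K * rd (cr x (f m)).natAbs := by rw [hK]; exact_mod_cast h1
          exact h2.trans (mul_le_mul_of_nonneg_left hm hK0.le))
      (g1.subset fun q hq => hq.1)
    have hRR : 1 ≤ R₁ * R₂ := by nlinarith
    have hY : (1 : ℝ) ≤ X ^ ε * Real.sqrt (R₁ * R₂) :=
      one_le_mul_of_one_le_of_one_le (Real.one_le_rpow hX hε.le) (Real.one_le_sqrt.2 hRR)
    rw [mul_assoc]
    refine fin _ _ (K ^ ε * K) (X ^ ε * Real.sqrt (R₁ * R₂)) hr.2 hY ?_ ?_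
    · refine (g4 b c hb1 hc1).trans ?_
      rw [mul_assoc]
      refine mul_le_mul_of_nonneg_left ?_ hC.le
      have e1 : (Z : ℝ) ^ ε ≤ K ^ ε * X ^ ε := by
        rw [← Real.mul_rpow hK0.le hX0.le]
        exact Real.rpow_le_rpow (Nat.cast_nonneg _) hZX hε.le
      have e2 : Real.sqrt ((b : ℝ) * c) ≤ K * Real.sqrt (R₁ * R₂) := by
        rw [show K * Real.sqrt (R₁ * R₂) = Real.sqrt (K ^ 2 * (R₁ * R₂)) by
          rw [Real.sqrt_mul (sq_nonneg K), Real.sqrt_sq hK0.le]]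
        refine Real.sqrt_le_sqrt ?_
        calc (b : ℝ) * c ≤ (K * R₁) * (K * R₂) :=
              mul_le_mul hbB hcB (Nat.cast_nonneg _) (by positivity)
          _ = _ := by ring
      calc (Z : ℝ) ^ ε * Real.sqrt ((b : ℝ) * c) ≤ (K ^ ε * X ^ ε) *
            (K * Real.sqrt (R₁ * R₂)) :=
            mul_le_mul e1 e2 (Real.sqrt_nonneg _) (by positivity)
        _ = _ := by ring
    · rw [hD]
      have : C * (K ^ ε * K) ≤ C * (K ^ (1 / 3 + ε) +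
        K ^ ε * (K * K) ^ ((1 : ℝ) / 4) + K ^ ε * K) := mul_le_mul_of_nonneg_left (by linarith) hC.le
      linarith

end Pool.Agent.T2H28.VS
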