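import Pool.Agent.T2H28.VS.Sqr
import Pool.Agent.T2H20.AH.Gh

/-!
# The exceptional rational numbers with prescribed primes, at all heights
-/

set_option autoImplicit false

namespace Pool.Agent.T2H28.VS

open Finset Pool.Agent.Results.MP_2ec8a3_nt.SquareRootAllHeights Pool.Agent.T2H20.AH
open Pool.Agent.T2H20.ABC Pool.Agent.H785R2.ABC.EC

theorem Lam_perm (f : Fin 3 → ℚ) {i j k : Fin 3} (hij : i ≠ j) (hjk : j ≠ k) (hik : i ≠ k) :
    Lam (f i) (f j) (f k) = Lam (f 0) (f 1) (f 2) := by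
  have hs : ∀ a b : ℚ, (cr a b).natAbs = (cr b a).natAbs := by
    intro a b
    rw [cr_swap a b, Int.natAbs_neg]
  unfold Lam
  simp only [Int.natAbs_mul]
  fin_cases i <;> fin_cases j <;> fin_cases k <;> first
    | exact absurd rfl hij
    | exact absurd rfl hjk
    | exact absurd rfl hik
    | (simp only [Fin.zero_eta, Fin.mk_one, Fin.reduceFinMk, hs (f 1) (f 0), hs (f 2) (f 0),
         hs (f 2) (f 1)] <;> ring)

/-- the primes of the members -/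
theorem member_primes (f : Fin 3 → ℚ) (hf : Function.Injective f) {x : ℚ} (hx : ∀ j, x ≠ f j)
    {i j k : Fin 3} (hij : i ≠ j) (hjk : j ≠ k) (hik : i ≠ k)
    (h : Dom (f i) (f j) (f k) x) (s : Fin 3) :
    (member (Tr (f i) (f j) (f k) x) s).primeFactors ⊆
      (cr x (f (![i, j, k] s))).natAbs.primeFactors ∪ (Lam (f 0) (f 1) (f 2)).primeFactors := by
  have h1 : f i ≠ f j := fun e => hij (hf e)
  have h2 : f j ≠ f k := fun e => hjk (hf e)
  have h3 : f i ≠ f k := fun e => hik (hf e)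
  have hL : Lam (f 0) (f 1) (f 2) ≠ 0 := by
    rw [← Lam_perm f hij hjk hik]
    exact Lam_ne h1 h2 h3
  have key : ∀ (t : ℕ) (l n : ℤ), l.natAbs ∣ Lam (f 0) (f 1) (f 2) → n ≠ 0 →
      gg (f i) (f j) (f k) x * t = (l * n).natAbs →
      t.primeFactors ⊆ n.natAbs.primeFactors ∪ (Lam (f 0) (f 1) (f 2)).primeFactors := by
    intro t l n hl hn ht p hp
    rw [Nat.mem_primeFactors] at hp
    obtain ⟨hpp, hpd, -⟩ := hp
    have h4 : p ∣ l.natAbs * n.natAbs := by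
      rw [← Int.natAbs_mul, ← ht]
      exact Dvd.dvd.mul_left hpd _
    rw [Finset.mem_union]
    rcases hpp.dvd_mul.1 h4 with h5 | h5
    · exact Or.inr (Nat.mem_primeFactors.2 ⟨hpp, h5.trans hl, hL⟩)
    · exact Or.inl (Nat.mem_primeFactors.2 ⟨hpp, h5, Int.natAbs_ne_zero.2 hn⟩)
  have hp := Lam_perm f hij hjk hik
  fin_cases s
  · exact key _ _ _ (hp ▸ lam_dvd₁ (f i) (f j) (f k)) (cr_ne (hx i)) (first h)
  · exact key _ _ _ (hp ▸ lam_dvd₂ (f i) (f j) (f k)) (cr_ne (hx j)) (second h)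
  · exact key _ _ _ (hp ▸ lam_dvd₃ (f i) (f j) (f k)) (cr_ne (hx k)) (third h)

/-- a bound for all finite subsets is a bound for the set -/
theorem of_bound {S : Set (ℕ × ℕ)} {B : ℝ}
    (hB : ∀ Q : Finset (ℕ × ℕ), (∀ q ∈ Q, q ∈ S) → (Q.card : ℝ) ≤ B) :
    S.Finite ∧ (S.ncard : ℝ) ≤ B := by
  have hf : S.Finite := by
    by_contra hcon
    obtain ⟨t, ht, hc⟩ := Set.Infinite.exists_subset_card_eq hcon (⌊B⌋₊ + 1)
    have h1 := hB t fun q hq => ht (Finset.mem_coe.2 hq)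
    rw [hc] at h1
    have h2 := Nat.lt_floor_add_one B
    push_cast at h1
    linarith
  refine ⟨hf, ?_⟩
  rw [Set.ncard_eq_toFinset_card S hf]
  exact hB _ fun q hq => hf.mem_toFinset.mp hq

/-- the primes modulo which `x` and `y` have the same reduction belong to `S` -/
def In (S : Finset ℕ) (x y : ℚ) : Prop := (cr x y).natAbs.primeFactors ⊆ S

/-- **prescribed primes at all heights** -/
theorem sup_all (f : Fin 3 → ℚ) (hf : Function.Injective f) (ε : ℝ) (hε : 0 < ε) :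
    ∃ θ C K : ℝ, 0 < θ ∧ 0 < C ∧ 1 ≤ K ∧ ∀ θ' : ℝ, θ' ≤ θ → ∀ X : ℝ, 1 ≤ X → ∀ S : Finset ℕ,
      (∀ B : ℝ, 1 ≤ B →
        ({x | x ∈ VE θ' f X ∧ ∃ i j, i ≠ j ∧ In S x (f i) ∧
          (rd (cr x (f j)).natAbs : ℝ) ≤ B}.ncard : ℝ) ≤
          C * K ^ S.card * X ^ ε * Real.sqrt B) ∧
      (∀ T : Finset ℕ,
        ({x | x ∈ VE θ' f X ∧ ∃ i j, i ≠ j ∧ In S x (f i) ∧ In T x (f j)}.ncard : ℝ) ≤
          C * K ^ (S.card + T.card) * X ^ ε) := by
  classical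
  obtain ⟨M₁, C₁, K₁, hM₁, hC₁, hK₁, h₁⟩ := two_units ε hε
  obtain ⟨M₂, C₂, K₂, hM₂, hC₂, hK₂, h₂⟩ := one_unit ε hε
  obtain ⟨M, hM⟩ : ∃ M, M = max M₁ M₂ := ⟨_, rfl⟩
  obtain ⟨θ, N, hθ, ht⟩ := transfer f hf M
  obtain ⟨K, hK⟩ : ∃ K : ℝ, K = (KK f : ℝ) := ⟨_, rfl⟩
  have hK1 : 1 ≤ K := by rw [hK]; exact_mod_cast KK_pos f hf
  have hK0 : 0 < K := by linarith
  rw [← hK] at ht
  obtain ⟨W, hW⟩ : ∃ W, W = (Lam (f 0) (f 1) (f 2)).primeFactors := ⟨_, rfl⟩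
  have hρ : ∀ (q : ℕ × ℕ) (Z m : ℕ), m ≤ M → q ∈ exceptions M Z →
      Pool.Agent.H785R2.ABC.rad (q.1 * q.2 * (q.1 + q.2)) ^ m ≤ q.1 + q.2 := fun q Z m hm hq =>
    (Nat.pow_le_pow_right (Pool.Agent.T2H20.AH.rad_pos' _) hm).trans hq.2.2
  obtain ⟨κ, hκ⟩ : ∃ κ : ℝ, κ = max K₁ K₂ := ⟨_, rfl⟩
  have hκ1 : 1 ≤ κ := by rw [hκ]; exact hK₁.trans (le_max_left _ _)
  have hκ0 : 0 < κ := by linarith
  have hκ₁ : K₁ ≤ κ := by rw [hκ]; exact le_max_left _ _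
  have hκ₂ : K₂ ≤ κ := by rw [hκ]; exact le_max_right _ _
  obtain ⟨Co, hCo⟩ : ∃ Co : ℝ, Co = C₁ + C₂ := ⟨_, rfl⟩
  have hCo0 : 0 < Co := by rw [hCo]; positivity
  obtain ⟨D, hD⟩ : ∃ D : ℝ, D = N + 27 * (Co * κ ^ (2 * W.card) * K ^ ε * K) := ⟨_, rfl⟩
  have hN0 : (0 : ℝ) ≤ N := Nat.cast_nonneg _
  have hD0 : 0 < D := by rw [hD]; positivity
  refine ⟨θ, D, κ, hθ, hD0, hκ1, fun θ' hθ' X hX S => ?_⟩
  have hX0 : 0 < X := by linarith
  obtain ⟨Z, hZ⟩ : ∃ Z : ℕ, Z = ⌊K * X⌋₊ := ⟨_, rfl⟩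
  have hKX : 1 ≤ K * X := by nlinarith
  have hZ1 : 1 ≤ Z := by rw [hZ]; exact Nat.le_floor (by exact_mod_cast hKX)
  have hZX : (Z : ℝ) ≤ K * X := by rw [hZ]; exact Nat.floor_le (by positivity)
  have ht' := ht θ' hθ' X hX
  rw [← hZ] at ht'
  have e1 : (Z : ℝ) ^ ε ≤ K ^ ε * X ^ ε := by
    rw [← Real.mul_rpow hK0.le hX0.le]
    exact Real.rpow_le_rpow (Nat.cast_nonneg _) hZX hε.le
  have hKe : (1 : ℝ) ≤ K ^ ε := Real.one_le_rpow hK1 hε.le
  have hXe : (1 : ℝ) ≤ X ^ ε := Real.one_le_rpow hX hε.le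
  have hdef : ∀ (x : ℚ) (i j k : Fin 3), (∀ j, x ≠ f j) → i ≠ j → j ≠ k → i ≠ k →
      Dom (f i) (f j) (f k) x → ∀ (s : Fin 3) (V : Finset ℕ),
      In V x (f (![i, j, k] s)) →
      (member (Tr (f i) (f j) (f k) x) s).primeFactors ⊆ V ∪ W := by
    intro x i j k hx hij hjk hik hDm s V hV
    rw [hW]
    exact (member_primes f hf hx hij hjk hik hDm s).trans (Finset.union_subset_union_left hV)
  refine ⟨fun B hB => ?_, fun T => ?_⟩
  · obtain ⟨b, hb⟩ : ∃ b : ℕ, b = ⌊K * B⌋₊ := ⟨_, rfl⟩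
    have hKB : 1 ≤ K * B := by nlinarith
    have hb1 : 1 ≤ b := by rw [hb]; exact Nat.le_floor (by exact_mod_cast hKB)
    have hbB : (b : ℝ) ≤ K * B := by rw [hb]; exact Nat.floor_le (by positivity)
    have hF := of_bound (S := {q | q ∈ exceptions M Z ∧ ∃ i j, i ≠ j ∧
        (member q i).primeFactors ⊆ S ∪ W ∧ radical (member q j) ≤ b})
      (B := C₂ * K₂ ^ (S ∪ W).card * (Z : ℝ) ^ ε * Real.sqrt b) (by
        intro Q hQ
        refine h₂ Z b hZ1 hb1 (S ∪ W) Q fun q hq => ?_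
        obtain ⟨hE, i, j, hij, hi, hj⟩ := hQ q hq
        refine ⟨hE.1.1, hE.1.2.1, hE.1.2.2, hE.2.1, ⟨i, j, hij, ?_, ?_⟩,
          hρ q Z M₂ (by rw [hM]; exact le_max_right _ _) hE⟩
        · rw [← member_eq]
          exact hi
        · rw [← member_eq]
          exact hj)
    have hr := ht' (fun x => ∃ i j, i ≠ j ∧ In S x (f i) ∧ (rd (cr x (f j)).natAbs : ℝ) ≤ B)
      {q | q ∈ exceptions M Z ∧ ∃ i j, i ≠ j ∧
        (member q i).primeFactors ⊆ S ∪ W ∧ radical (member q j) ≤ b} (by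
        rintro x hx ⟨l, m, hlm, hl, hm⟩ i j k hij hjk hik hDm hmem
        refine ⟨hmem, ?_⟩
        obtain ⟨s, hs⟩ := exists_index hij hjk hik l
        obtain ⟨t, ht⟩ := exists_index hij hjk hik m
        refine ⟨s, t, fun e => hlm (by rw [← hs, ← ht, e]), ?_, ?_⟩
        · exact hdef x i j k hx hij hjk hik hDm s S (by rw [hs]; exact hl)
        · have h1 := member_le f hf hx hij hjk hik hDm t
          rw [ht] at h1
          rw [hb]
          apply Nat.le_floor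
          have h2 : ((radical (member (Tr (f i) (f j) (f k) x) t) : ℕ) : ℝ) ≤
              K * rd (cr x (f m)).natAbs := by rw [hK]; exact_mod_cast h1
          exact h2.trans (mul_le_mul_of_nonneg_left hm hK0.le)) hF.1
    have hsB : (1 : ℝ) ≤ Real.sqrt B := Real.one_le_sqrt.2 hB
    have h5 : (S ∪ W).card ≤ S.card + 2 * W.card := by
      have := Finset.card_union_le S W
      omega
    have h6 : K₂ ^ (S ∪ W).card ≤ κ ^ (2 * W.card) * κ ^ S.card := by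
      calc K₂ ^ (S ∪ W).card ≤ κ ^ (S ∪ W).card := pow_le_pow_left₀ (by linarith) hκ₂ _
        _ ≤ κ ^ (S.card + 2 * W.card) := pow_le_pow_right₀ hκ1 h5
        _ = _ := by rw [pow_add]; ring
    have h7 : Real.sqrt b ≤ K * Real.sqrt B := by
      rw [show K * Real.sqrt B = Real.sqrt (K ^ 2 * B) by
        rw [Real.sqrt_mul (sq_nonneg K), Real.sqrt_sq hK0.le]]
      refine Real.sqrt_le_sqrt (hbB.trans ?_)
      nlinarith
    have h8 : C₂ ≤ Co := by rw [hCo]; linarith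
    have h9 : (1 : ℝ) ≤ κ ^ S.card * X ^ ε * Real.sqrt B :=
      one_le_mul_of_one_le_of_one_le
        (one_le_mul_of_one_le_of_one_le (one_le_pow₀ hκ1) hXe) hsB
    have h10 : ({x | x ∈ VE θ' f X ∧ ∃ i j, i ≠ j ∧ In S x (f i) ∧
          (rd (cr x (f j)).natAbs : ℝ) ≤ B}.ncard : ℝ) ≤ N + 27 * (C₂ * K₂ ^ (S ∪ W).card *
          (Z : ℝ) ^ ε * Real.sqrt b) := by
      have h11 : ({x | x ∈ VE θ' f X ∧ ∃ i j, i ≠ j ∧ In S x (f i) ∧
          (rd (cr x (f j)).natAbs : ℝ) ≤ B}.ncard : ℝ) ≤ N + 27 * ({q | q ∈ exceptions M Z ∧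
          ∃ i j, i ≠ j ∧ (member q i).primeFactors ⊆ S ∪ W ∧
          radical (member q j) ≤ b}.ncard : ℝ) := by exact_mod_cast hr.2
      linarith [hF.2]
    refine h10.trans ?_
    obtain ⟨Y, hY⟩ : ∃ Y : ℝ, Y = κ ^ S.card * X ^ ε * Real.sqrt B := ⟨_, rfl⟩
    rw [← hY] at h9
    have h12 : C₂ * K₂ ^ (S ∪ W).card * (Z : ℝ) ^ ε * Real.sqrt b ≤
        Co * κ ^ (2 * W.card) * K ^ ε * K * Y := by
      calc C₂ * K₂ ^ (S ∪ W).card * (Z : ℝ) ^ ε * Real.sqrt b ≤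
            Co * (κ ^ (2 * W.card) * κ ^ S.card) * (K ^ ε * X ^ ε) * (K * Real.sqrt B) := by
            refine mul_le_mul (mul_le_mul (mul_le_mul h8 h6 ?_ hCo0.le) e1 ?_ ?_) h7 ?_ ?_
            · have : (0 : ℝ) ≤ K₂ := by linarith
              positivity
            · positivity
            · positivity
            · positivity
            · positivity
        _ = _ := by rw [hY]; ring
    have h13 : (N : ℝ) ≤ N * Y := le_mul_of_one_le_right hN0 h9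
    calc (N : ℝ) + 27 * (C₂ * K₂ ^ (S ∪ W).card * (Z : ℝ) ^ ε * Real.sqrt b) ≤
          N * Y + 27 * (Co * κ ^ (2 * W.card) * K ^ ε * K * Y) := by linarith
      _ = D * Y := by rw [hD]; ring
      _ = _ := by rw [hY]; ring
  · have hF := of_bound (S := {q | q ∈ exceptions M Z ∧ ∃ i j, i ≠ j ∧
        (member q i).primeFactors ⊆ S ∪ W ∧ (member q j).primeFactors ⊆ T ∪ W})
      (B := C₁ * K₁ ^ ((S ∪ W).card + (T ∪ W).card) * (Z : ℝ) ^ ε) (by
        intro Q hQ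
        refine h₁ Z hZ1 (S ∪ W) (T ∪ W) Q fun q hq => ?_
        obtain ⟨hE, i, j, hij, hi, hj⟩ := hQ q hq
        refine ⟨hE.1.1, hE.1.2.1, hE.1.2.2, hE.2.1, ⟨i, j, hij, ?_, ?_⟩,
          hρ q Z M₁ (by rw [hM]; exact le_max_left _ _) hE⟩
        · rw [← member_eq]
          exact hi
        · rw [← member_eq]
          exact hj)
    have hr := ht' (fun x => ∃ i j, i ≠ j ∧ In S x (f i) ∧ In T x (f j))
      {q | q ∈ exceptions M Z ∧ ∃ i j, i ≠ j ∧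
        (member q i).primeFactors ⊆ S ∪ W ∧ (member q j).primeFactors ⊆ T ∪ W} (by
        rintro x hx ⟨l, m, hlm, hl, hm⟩ i j k hij hjk hik hDm hmem
        refine ⟨hmem, ?_⟩
        obtain ⟨s, hs⟩ := exists_index hij hjk hik l
        obtain ⟨t, ht⟩ := exists_index hij hjk hik m
        refine ⟨s, t, fun e => hlm (by rw [← hs, ← ht, e]), ?_, ?_⟩
        · exact hdef x i j k hx hij hjk hik hDm s S (by rw [hs]; exact hl)
        · exact hdef x i j k hx hij hjk hik hDm t T (by rw [ht]; exact hm)) hF.1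
    have h5 : (S ∪ W).card + (T ∪ W).card ≤ (S.card + T.card) + 2 * W.card := by
      have := Finset.card_union_le S W
      have := Finset.card_union_le T W
      omega
    have h6 : K₁ ^ ((S ∪ W).card + (T ∪ W).card) ≤ κ ^ (2 * W.card) * κ ^ (S.card + T.card) := by
      calc K₁ ^ ((S ∪ W).card + (T ∪ W).card) ≤ κ ^ ((S ∪ W).card + (T ∪ W).card) :=
            pow_le_pow_left₀ (by linarith) hκ₁ _
        _ ≤ κ ^ ((S.card + T.card) + 2 * W.card) := pow_le_pow_right₀ hκ1 h5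
        _ = _ := by rw [pow_add]; ring
    have h8 : C₁ ≤ Co := by rw [hCo]; linarith
    have h9 : (1 : ℝ) ≤ κ ^ (S.card + T.card) * X ^ ε :=
      one_le_mul_of_one_le_of_one_le (one_le_pow₀ hκ1) hXe
    have h10 : ({x | x ∈ VE θ' f X ∧ ∃ i j, i ≠ j ∧ In S x (f i) ∧ In T x (f j)}.ncard : ℝ) ≤
          N + 27 * (C₁ * K₁ ^ ((S ∪ W).card + (T ∪ W).card) * (Z : ℝ) ^ ε) := by
      have h11 : ({x | x ∈ VE θ' f X ∧ ∃ i j, i ≠ j ∧ In S x (f i) ∧ In T x (f j)}.ncard : ℝ) ≤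
          N + 27 * ({q | q ∈ exceptions M Z ∧ ∃ i j, i ≠ j ∧
          (member q i).primeFactors ⊆ S ∪ W ∧
          (member q j).primeFactors ⊆ T ∪ W}.ncard : ℝ) := by exact_mod_cast hr.2
      linarith [hF.2]
    refine h10.trans ?_
    obtain ⟨Y, hY⟩ : ∃ Y : ℝ, Y = κ ^ (S.card + T.card) * X ^ ε := ⟨_, rfl⟩
    rw [← hY] at h9
    have h12 : C₁ * K₁ ^ ((S ∪ W).card + (T ∪ W).card) * (Z : ℝ) ^ ε ≤
        Co * κ ^ (2 * W.card) * K ^ ε * K * Y := by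
      calc C₁ * K₁ ^ ((S ∪ W).card + (T ∪ W).card) * (Z : ℝ) ^ ε ≤
            Co * (κ ^ (2 * W.card) * κ ^ (S.card + T.card)) * (K ^ ε * X ^ ε) := by
            refine mul_le_mul (mul_le_mul h8 h6 ?_ hCo0.le) e1 ?_ ?_
            · have : (0 : ℝ) ≤ K₁ := by linarith
              positivity
            · positivity
            · positivity
        _ = Co * κ ^ (2 * W.card) * K ^ ε * Y := by rw [hY]; ring
        _ ≤ _ := by
            have h14 : 0 ≤ Co * κ ^ (2 * W.card) * K ^ ε * Y := by positivity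
            nlinarith
    have h13 : (N : ℝ) ≤ N * Y := le_mul_of_one_le_right hN0 h9
    calc (N : ℝ) + 27 * (C₁ * K₁ ^ ((S ∪ W).card + (T ∪ W).card) * (Z : ℝ) ^ ε) ≤
          N * Y + 27 * (Co * κ ^ (2 * W.card) * K ^ ε * K * Y) := by linarith
      _ = D * Y := by rw [hD]; ring
      _ = _ := by rw [hY]; ring

/-- the radicals of two determinants -/
theorem rd_two (f : Fin 3 → ℚ) (hf : Function.Injective f) {x : ℚ} (hx : ∀ j, x ≠ f j)
    {j k : Fin 3} (hjk : j ≠ k) :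
    rd (cr x (f j)).natAbs * rd (cr x (f k)).natAbs ≤ KK f * rd (NP f x) := by
  classical
  obtain ⟨m, hm⟩ : ∃ m, m = (cr x (f j)).natAbs := ⟨_, rfl⟩
  obtain ⟨n, hn⟩ : ∃ n, n = (cr x (f k)).natAbs := ⟨_, rfl⟩
  have hm0 : m ≠ 0 := by rw [hm]; exact Int.natAbs_ne_zero.2 (cr_ne (hx j))
  have hn0 : n ≠ 0 := by rw [hn]; exact Int.natAbs_ne_zero.2 (cr_ne (hx k))
  have hd0 : (cr (f k) (f j)).natAbs ≠ 0 :=
    Int.natAbs_ne_zero.2 (cr_ne fun e => hjk (hf e).symm)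
  rw [← hm, ← hn]
  have h1 : m.primeFactors ∩ n.primeFactors ⊆ (cr (f k) (f j)).natAbs.primeFactors := by
    intro p hp
    rw [mem_inter, Nat.mem_primeFactors, Nat.mem_primeFactors] at hp
    obtain ⟨⟨hpp, hpm, -⟩, -, hpn, -⟩ := hp
    rw [Nat.mem_primeFactors]
    refine ⟨hpp, ?_, hd0⟩
    rw [hm] at hpm
    rw [hn] at hpn
    exact Int.natCast_dvd.1 (dvd_cr (Int.natCast_dvd.2 hpm) (Int.natCast_dvd.2 hpn))
  have h2 : ∏ p ∈ m.primeFactors ∩ n.primeFactors, p ≤ (cr (f k) (f j)).natAbs := by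
    calc ∏ p ∈ m.primeFactors ∩ n.primeFactors, p ≤
          ∏ p ∈ (cr (f k) (f j)).natAbs.primeFactors, p :=
          Finset.prod_le_prod_of_subset_of_one_le' h1 fun p hp _ =>
            (Nat.prime_of_mem_primeFactors hp).one_le
      _ ≤ _ := rd_le_self hd0
  have hex : ∀ j k : Fin 3, ∃ i : Fin 3, i ≠ j ∧ i ≠ k := by decide
  obtain ⟨i, hij, hik⟩ := hex j k
  have h3 : (cr (f k) (f j)).natAbs ≤ KK f := by
    have hL := Lam_ne (a := f j) (b := f k) (c := f i) (fun e => hjk (hf e))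
      (fun e => hik (hf e).symm) (fun e => hij (hf e).symm)
    exact (Nat.le_of_dvd (Nat.pos_of_ne_zero hL) (lam_dvd₃ _ _ _)).trans
      ((Lam_le_Kc _ _ _).trans (Kc_le_KK f j k i))
  have h4 : rd m * rd n = (∏ p ∈ m.primeFactors ∩ n.primeFactors, p) * rd (m * n) := by
    unfold rd
    rw [Nat.primeFactors_mul hm0 hn0, mul_comm (∏ p ∈ m.primeFactors ∩ n.primeFactors, p),
      Finset.prod_union_inter]
  have h5 : rd (m * n) ≤ rd (NP f x) := by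
    apply rd_le_of_dvd (NP_ne hx)
    have h6 : NP f x = (cr x (f i)).natAbs * (m * n) := by
      unfold NP
      rw [hm, hn]
      revert hij hik hjk
      fin_cases i <;> fin_cases j <;> fin_cases k <;> intro h7 h8 h9 <;> first
        | exact absurd rfl h7
        | exact absurd rfl h8
        | exact absurd rfl h9
        | (rw [Fin.prod_univ_three]
           simp only [Fin.zero_eta, Fin.mk_one, Fin.reduceFinMk]
           ring)
    exact ⟨(cr x (f i)).natAbs, by rw [h6]; ring⟩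
  rw [h4]
  exact Nat.mul_le_mul (h2.trans h3) h5

/-- **prescribed primes for one point** -/
theorem sup_one (f : Fin 3 → ℚ) (hf : Function.Injective f) (ε : ℝ) (hε : 0 < ε) :
    ∃ θ C K : ℝ, 0 < θ ∧ 0 < C ∧ 1 ≤ K ∧ ∀ θ' : ℝ, θ' ≤ θ → ∀ X : ℝ, 1 ≤ X → ∀ S : Finset ℕ,
      (({x | x ∈ VE θ' f X ∧ ∃ i, In S x (f i)}.ncard : ℝ) ≤
          C * K ^ S.card * X ^ (1 / 4 + ε)) ∧
      (∀ B : ℝ, 1 ≤ B →
        ({x | x ∈ VE θ' f X ∧ ∃ i j, i ≠ j ∧ In S x (f i) ∧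
          (rd (cr x (f j)).natAbs : ℝ) ≤ B}.ncard : ℝ) ≤
          C * K ^ S.card * X ^ ε * Real.sqrt B) ∧
      (∀ T : Finset ℕ,
        ({x | x ∈ VE θ' f X ∧ ∃ i j, i ≠ j ∧ In S x (f i) ∧ In T x (f j)}.ncard : ℝ) ≤
          C * K ^ (S.card + T.card) * X ^ ε) := by
  obtain ⟨θ, C, K, hθ, hC, hK, h⟩ := sup_all f hf ε hε
  obtain ⟨κ, hκ⟩ : ∃ κ : ℝ, κ = (KK f : ℝ) := ⟨_, rfl⟩
  have hκ1 : 1 ≤ κ := by rw [hκ]; exact_mod_cast KK_pos f hf
  have hκ0 : 0 < κ := by linarith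
  refine ⟨θ, C * κ, K, hθ, by positivity, hK, fun θ' hθ' X hX S => ?_⟩
  have hX0 : 0 < X := by linarith
  obtain ⟨h1, h2⟩ := h θ' hθ' X hX S
  have hKS : (1 : ℝ) ≤ K ^ S.card := one_le_pow₀ hK
  have hXe : (1 : ℝ) ≤ X ^ ε := Real.one_le_rpow hX hε.le
  have hfin : (VE θ' f X).Finite := by
    obtain ⟨θ₁, C₁, hθ₁, -, h₁⟩ := sq_all f hf ε hε
    rcases le_or_gt θ' 0 with h0 | h0
    · -- there is no exception
      refine Set.Finite.subset Set.finite_empty ?_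
      rintro x ⟨-, -, h3⟩
      have h4 : (1 : ℝ) ≤ (rd (NP f x) : ℝ) := by exact_mod_cast rd_pos _
      have h5 : (hh x : ℝ) ^ θ' ≤ 1 :=
        Real.rpow_le_one_of_one_le_of_nonpos (by exact_mod_cast hh_pos x) h0
      linarith
    · exact ((VE_upper θ' h0 f hf 1 one_pos).choose_spec.2 X hX).1
  have hm : ∀ (Y κ' : ℝ), 0 ≤ Y → Y ≤ κ' → (1 : ℝ) ≤ κ → Y ≤ κ * κ' := by
    intro Y κ' h3 h4 h5
    nlinarith
  refine ⟨?_, fun B hB => ?_, fun T => ?_⟩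
  · obtain ⟨B, hB⟩ : ∃ B : ℝ, B = Real.sqrt (κ * X) := ⟨_, rfl⟩
    have hκX : 1 ≤ κ * X := by nlinarith
    have hB1 : 1 ≤ B := by rw [hB]; exact Real.one_le_sqrt.2 hκX
    have hsub : {x | x ∈ VE θ' f X ∧ ∃ i, In S x (f i)} ⊆
        {x | x ∈ VE θ' f X ∧ ∃ i j, i ≠ j ∧ In S x (f i) ∧
          (rd (cr x (f j)).natAbs : ℝ) ≤ B} := by
      rintro x ⟨hx, i, hi⟩
      refine ⟨hx, i, ?_⟩
      have hex : ∀ i : Fin 3, ∃ j k : Fin 3, i ≠ j ∧ j ≠ k ∧ i ≠ k := by decide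
      obtain ⟨j, k, hij, hjk, hik⟩ := hex i
      have h3 := rd_two f hf hx.1 hjk
      have h4 : (rd (cr x (f j)).natAbs : ℝ) * rd (cr x (f k)).natAbs ≤ κ * X := by
        calc (rd (cr x (f j)).natAbs : ℝ) * rd (cr x (f k)).natAbs ≤ κ * rd (NP f x) := by
              rw [hκ]; exact_mod_cast h3
          _ ≤ κ * X := mul_le_mul_of_nonneg_left hx.2.1 hκ0.le
      rcases le_total (rd (cr x (f j)).natAbs : ℝ) (rd (cr x (f k)).natAbs : ℝ) with h5 | h5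
      · refine ⟨j, hij, hi, ?_⟩
        rw [hB]
        apply Real.le_sqrt_of_sq_le
        have h6 : (0 : ℝ) ≤ rd (cr x (f j)).natAbs := Nat.cast_nonneg _
        nlinarith
      · refine ⟨k, hik, hi, ?_⟩
        rw [hB]
        apply Real.le_sqrt_of_sq_le
        have h6 : (0 : ℝ) ≤ rd (cr x (f k)).natAbs := Nat.cast_nonneg _
        nlinarith
    have h3 : ({x | x ∈ VE θ' f X ∧ ∃ i, In S x (f i)}.ncard : ℝ) ≤
        C * K ^ S.card * X ^ ε * Real.sqrt B := by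
      refine le_trans ?_ (h1 B hB1)
      exact_mod_cast Set.ncard_le_ncard hsub (hfin.subset fun x hx => hx.1)
    refine h3.trans ?_
    have h4 : Real.sqrt B ≤ κ * X ^ ((1 : ℝ) / 4) := by
      rw [hB, Real.sqrt_eq_rpow, Real.sqrt_eq_rpow, ← Real.rpow_mul (by positivity),
        Real.mul_rpow hκ0.le hX0.le]
      have h5 : κ ^ ((1 : ℝ) / 2 * (1 / 2)) ≤ κ := by
        calc κ ^ ((1 : ℝ) / 2 * (1 / 2)) ≤ κ ^ (1 : ℝ) :=
              Real.rpow_le_rpow_of_exponent_le hκ1 (by norm_num)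
          _ = κ := Real.rpow_one κ
      have h6 : ((1 : ℝ) / 2 * (1 / 2)) = 1 / 4 := by norm_num
      rw [h6] at h5 ⊢
      exact mul_le_mul_of_nonneg_right h5 (by positivity)
    calc C * K ^ S.card * X ^ ε * Real.sqrt B ≤
          C * K ^ S.card * X ^ ε * (κ * X ^ ((1 : ℝ) / 4)) :=
          mul_le_mul_of_nonneg_left h4 (by positivity)
      _ = C * κ * K ^ S.card * (X ^ ((1 : ℝ) / 4) * X ^ ε) := by ring
      _ = _ := by rw [← Real.rpow_add hX0]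
  · refine (hm _ _ (Nat.cast_nonneg _) (h1 B hB) hκ1).trans (le_of_eq ?_)
    ring
  · refine (hm _ _ (Nat.cast_nonneg _) (h2 T) hκ1).trans (le_of_eq ?_)
    ring

end Pool.Agent.T2H28.VS
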