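import Mathlib

/-!
# Rational numbers and triples of coprime integers

The map from the rational numbers different from `a`, `b`, `c` to the coprime triples
`(A, B, A + B)`: the radicals of the members are, up to constant factors, the radicals of the
integers `cr x a`, `cr x b`, `cr x c`, and `A + B` is, up to a constant factor, the height.
-/

set_option autoImplicit false

namespace Pool.Agent.T2H28.VS

open Finset

/-- the radical -/
def rd (n : ℕ) : ℕ := ∏ p ∈ n.primeFactors, p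

theorem rd_pos (n : ℕ) : 0 < rd n :=
  Finset.prod_pos fun _ hp => (Nat.prime_of_mem_primeFactors hp).pos

theorem rd_le_of_subset {m n : ℕ} (h : m.primeFactors ⊆ n.primeFactors) : rd m ≤ rd n := by
  unfold rd
  exact Finset.prod_le_prod_of_subset_of_one_le' h fun p hp _ =>
    (Nat.prime_of_mem_primeFactors hp).one_le

theorem rd_le_of_dvd {m n : ℕ} (hn : n ≠ 0) (h : m ∣ n) : rd m ≤ rd n :=
  rd_le_of_subset (Nat.primeFactors_mono h hn)

theorem rd_le_self {n : ℕ} (hn : n ≠ 0) : rd n ≤ n := by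
  unfold rd
  exact Nat.le_of_dvd (Nat.pos_of_ne_zero hn) (Nat.prod_primeFactors_dvd n)

theorem rd_mul_le {m n : ℕ} (hm : m ≠ 0) (hn : n ≠ 0) : rd (m * n) ≤ m * rd n := by
  refine le_trans ?_ (Nat.mul_le_mul_right _ (rd_le_self hm))
  unfold rd
  rw [Nat.primeFactors_mul hm hn, ← Finset.prod_union_inter]
  refine Nat.le_mul_of_pos_right _ ?_
  exact Finset.prod_pos fun p hp =>
    (Nat.prime_of_mem_primeFactors (Finset.mem_of_mem_inter_left hp)).pos

theorem rd_mul_le' {m n N : ℕ} (hn : n ≠ 0) (h : m ∣ N) (hN : N ≠ 0) :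
    rd (m * n) ≤ N * rd n :=
  (rd_mul_le (ne_zero_of_dvd_ne_zero hN h) hn).trans
    (Nat.mul_le_mul_right _ (Nat.le_of_dvd (Nat.pos_of_ne_zero hN) h))

theorem rd_cube {g n : ℕ} (hg : g ≠ 0) (hn : n ≠ 0) : rd (g * g * g * n) = rd (g * n) := by
  unfold rd
  rw [Nat.primeFactors_mul (by positivity) hn, Nat.primeFactors_mul (by positivity) hg,
    Nat.primeFactors_mul hg hg, Nat.primeFactors_mul hg hn, Finset.union_self, Finset.union_self]

/-- the determinant of two rational numbers in lowest terms -/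
def cr (x y : ℚ) : ℤ := x.num * y.den - y.num * x.den

theorem cr_cast (x y : ℚ) : (cr x y : ℚ) = (x - y) * (x.den * y.den) := by
  unfold cr
  push_cast
  have hx := Rat.mul_den_eq_num x
  have hy := Rat.mul_den_eq_num y
  rw [← hx, ← hy]
  ring

theorem cr_ne {x y : ℚ} (h : x ≠ y) : cr x y ≠ 0 := by
  intro h0
  have h1 := cr_cast x y
  rw [h0] at h1
  have h2 : (x.den : ℚ) ≠ 0 := by exact_mod_cast x.den_nz
  have h3 : (y.den : ℚ) ≠ 0 := by exact_mod_cast y.den_nz
  have h4 : x - y ≠ 0 := sub_ne_zero.2 h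
  have h5 : (x - y) * (x.den * y.den) ≠ 0 := by positivity
  exact h5 (by rw [← h1]; norm_num)

theorem cr_swap (x y : ℚ) : cr x y = - cr y x := by
  unfold cr; ring

/-- the members of the triple -/
def mem3 (a b c x : ℚ) : ℤ := cr c b * cr x a

theorem sum_mem (a b c x : ℚ) : mem3 a b c x + mem3 b c a x + mem3 c a b x = 0 := by
  unfold mem3 cr; ring

theorem mem3_swap (a b c x : ℚ) : mem3 a c b x = - mem3 a b c x := by
  unfold mem3
  rw [cr_swap c b]
  ring

theorem mem3_ne {a b c x : ℚ} (h : b ≠ c) (hx : x ≠ a) : mem3 a b c x ≠ 0 :=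
  mul_ne_zero (cr_ne h.symm) (cr_ne hx)

/-- the constant `Λ` -/
def Lam (a b c : ℚ) : ℕ := (cr c b * cr a c * cr b a).natAbs

theorem Lam_ne {a b c : ℚ} (hab : a ≠ b) (hbc : b ≠ c) (hac : a ≠ c) : Lam a b c ≠ 0 := by
  unfold Lam
  rw [Int.natAbs_ne_zero]
  exact mul_ne_zero (mul_ne_zero (cr_ne hbc.symm) (cr_ne hac)) (cr_ne hab.symm)

theorem dvd_cr {d : ℤ} {a b x : ℚ} (ha : d ∣ cr x a) (hb : d ∣ cr x b) : d ∣ cr b a := by
  have h1 : d ∣ x.num * cr b a := by
    have e : x.num * cr b a = b.num * cr x a - a.num * cr x b := by unfold cr; ring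
    rw [e]
    exact dvd_sub (Dvd.dvd.mul_left ha _) (Dvd.dvd.mul_left hb _)
  have h2 : d ∣ (x.den : ℤ) * cr b a := by
    have e : (x.den : ℤ) * cr b a = b.den * cr x a - a.den * cr x b := by unfold cr; ring
    rw [e]
    exact dvd_sub (Dvd.dvd.mul_left ha _) (Dvd.dvd.mul_left hb _)
  have hc : IsCoprime x.num (x.den : ℤ) := by
    rw [Int.isCoprime_iff_gcd_eq_one]
    have := x.reduced
    rw [Nat.Coprime] at this
    simpa [Int.gcd] using this
  obtain ⟨s, t, hst⟩ := hc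
  have e : cr b a = s * (x.num * cr b a) + t * (x.den * cr b a) := by
    calc cr b a = (s * x.num + t * x.den) * cr b a := by rw [hst, one_mul]
      _ = _ := by ring
  rw [e]
  exact dvd_add (Dvd.dvd.mul_left h1 _) (Dvd.dvd.mul_left h2 _)

/-- the greatest common divisor of the members -/
def gg (a b c x : ℚ) : ℕ := Int.gcd (mem3 a b c x) (mem3 b c a x)

theorem gg_dvd (a b c x : ℚ) : gg a b c x ∣ Lam a b c := by
  obtain ⟨g, hg⟩ : ∃ g : ℤ, g = (gg a b c x : ℤ) := ⟨_, rfl⟩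
  have h1 : g ∣ cr c b * cr x a := by rw [hg]; exact Int.gcd_dvd_left _ _
  have h2 : g ∣ cr a c * cr x b := by rw [hg]; exact Int.gcd_dvd_right _ _
  have h3 : g ∣ (cr c b * cr a c) * (cr x a) := by
    have := Dvd.dvd.mul_right h1 (cr a c)
    rwa [show cr c b * cr x a * cr a c = (cr c b * cr a c) * (cr x a) by ring] at this
  have h4 : g ∣ (cr c b * cr a c) * (cr x b) := by
    have := Dvd.dvd.mul_right h2 (cr c b)
    rwa [show cr a c * cr x b * cr c b = (cr c b * cr a c) * (cr x b) by ring] at this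
  have h5 : g ∣ (cr c b * cr a c) * cr b a := by
    have h6 : g ∣ x.num * ((cr c b * cr a c) * cr b a) := by
      have e : x.num * ((cr c b * cr a c) * cr b a) =
          b.num * ((cr c b * cr a c) * (cr x a)) - a.num * ((cr c b * cr a c) * (cr x b)) := by
        unfold cr; ring
      rw [e]
      exact dvd_sub (Dvd.dvd.mul_left h3 _) (Dvd.dvd.mul_left h4 _)
    have h7 : g ∣ (x.den : ℤ) * ((cr c b * cr a c) * cr b a) := by
      have e : (x.den : ℤ) * ((cr c b * cr a c) * cr b a) =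
          b.den * ((cr c b * cr a c) * (cr x a)) - a.den * ((cr c b * cr a c) * (cr x b)) := by
        unfold cr; ring
      rw [e]
      exact dvd_sub (Dvd.dvd.mul_left h3 _) (Dvd.dvd.mul_left h4 _)
    have hc : IsCoprime x.num (x.den : ℤ) := by
      rw [Int.isCoprime_iff_gcd_eq_one]
      have := x.reduced
      rw [Nat.Coprime] at this
      simpa [Int.gcd] using this
    obtain ⟨s, t, hst⟩ := hc
    have e : (cr c b * cr a c) * cr b a =
        s * (x.num * ((cr c b * cr a c) * cr b a)) +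
          t * (x.den * ((cr c b * cr a c) * cr b a)) := by
      calc (cr c b * cr a c) * cr b a =
          (s * x.num + t * x.den) * ((cr c b * cr a c) * cr b a) := by rw [hst, one_mul]
        _ = _ := by ring
    rw [e]
    exact dvd_add (Dvd.dvd.mul_left h6 _) (Dvd.dvd.mul_left h7 _)
  have h8 := Int.natAbs_dvd_natAbs.2 h5
  rw [hg, Int.natAbs_natCast] at h8
  exact h8

/-- the triple -/
def Tr (a b c x : ℚ) : ℕ × ℕ :=
  ((mem3 a b c x).natAbs / gg a b c x, (mem3 b c a x).natAbs / gg a b c x)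

/-- the domain -/
def Dom (a b c x : ℚ) : Prop :=
  0 < mem3 a b c x * mem3 b c a x ∧ (mem3 a b c x).natAbs ≤ (mem3 b c a x).natAbs

/-- the members in terms of the triple -/
theorem dom_rep {a b c x : ℚ} (h : Dom a b c x) : ∃ k : ℤ, k ≠ 0 ∧ k.natAbs = gg a b c x ∧
    mem3 a b c x = k * (Tr a b c x).1 ∧ mem3 b c a x = k * (Tr a b c x).2 ∧
    0 < (Tr a b c x).1 ∧ (Tr a b c x).1 ≤ (Tr a b c x).2 ∧
    Nat.Coprime (Tr a b c x).1 (Tr a b c x).2 := by
  obtain ⟨h1, h2⟩ := h
  obtain ⟨u, hu⟩ : ∃ u, u = mem3 a b c x := ⟨_, rfl⟩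
  obtain ⟨v, hv⟩ : ∃ v, v = mem3 b c a x := ⟨_, rfl⟩
  have hg : gg a b c x = Nat.gcd u.natAbs v.natAbs := by rw [hu, hv]; rfl
  have hT : Tr a b c x = (u.natAbs / Nat.gcd u.natAbs v.natAbs,
      v.natAbs / Nat.gcd u.natAbs v.natAbs) := by
    unfold Tr
    rw [hg, ← hu, ← hv]
  rw [← hu, ← hv] at h1 h2
  rw [hT, ← hu, ← hv, hg]
  have hu0 : u ≠ 0 := by rintro rfl; simp at h1
  have hv0 : v ≠ 0 := by rintro rfl; simp at h1
  have hua : 0 < u.natAbs := Int.natAbs_pos.2 hu0
  have hva : 0 < v.natAbs := Int.natAbs_pos.2 hv0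
  have hgp : 0 < Nat.gcd u.natAbs v.natAbs := Nat.gcd_pos_of_pos_left _ hua
  obtain ⟨g, hgd⟩ : ∃ g, g = Nat.gcd u.natAbs v.natAbs := ⟨_, rfl⟩
  rw [← hgd] at hgp ⊢
  have d1 : g ∣ u.natAbs := hgd ▸ Nat.gcd_dvd_left _ _
  have d2 : g ∣ v.natAbs := hgd ▸ Nat.gcd_dvd_right _ _
  have m1 : g * (u.natAbs / g) = u.natAbs := Nat.mul_div_cancel' d1
  have m2 : g * (v.natAbs / g) = v.natAbs := Nat.mul_div_cancel' d2
  have hle : u.natAbs / g ≤ v.natAbs / g := Nat.div_le_div_right h2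
  have hpos : 0 < u.natAbs / g := Nat.div_pos (Nat.le_of_dvd hua d1) hgp
  have hcop : Nat.Coprime (u.natAbs / g) (v.natAbs / g) := by
    rw [hgd]
    exact Nat.coprime_div_gcd_div_gcd (hgd ▸ hgp)
  rcases lt_or_gt_of_ne hu0 with hneg | hposu
  · have hvneg : v < 0 := by
      by_contra hcon
      push Not at hcon
      nlinarith
    refine ⟨-(g : ℤ), by simpa using hgp.ne', by simp, ?_, ?_, hpos, hle, hcop⟩
    · show u = -(g : ℤ) * ((u.natAbs / g : ℕ) : ℤ)
      have : ((g * (u.natAbs / g) : ℕ) : ℤ) = u.natAbs := by rw [m1]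
      push_cast at this ⊢
      rw [neg_mul, this, abs_of_neg hneg]
      ring
    · show v = -(g : ℤ) * ((v.natAbs / g : ℕ) : ℤ)
      have : ((g * (v.natAbs / g) : ℕ) : ℤ) = v.natAbs := by rw [m2]
      push_cast at this ⊢
      rw [neg_mul, this, abs_of_neg hvneg]
      ring
  · have hvpos : 0 < v := by
      by_contra hcon
      push Not at hcon
      nlinarith
    refine ⟨(g : ℤ), by simpa using hgp.ne', by simp, ?_, ?_, hpos, hle, hcop⟩
    · show u = (g : ℤ) * ((u.natAbs / g : ℕ) : ℤ)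
      have : ((g * (u.natAbs / g) : ℕ) : ℤ) = u.natAbs := by rw [m1]
      push_cast at this ⊢
      rw [this, abs_of_pos hposu]
    · show v = (g : ℤ) * ((v.natAbs / g : ℕ) : ℤ)
      have : ((g * (v.natAbs / g) : ℕ) : ℤ) = v.natAbs := by rw [m2]
      push_cast at this ⊢
      rw [this, abs_of_pos hvpos]

/-- the triple determines the rational number -/
theorem Tr_inj {a b c x y : ℚ} (hab : a ≠ b) (hbc : b ≠ c) (hac : a ≠ c) (hx : Dom a b c x)
    (hy : Dom a b c y) (h : Tr a b c x = Tr a b c y) : x = y := by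
  obtain ⟨k, hk, -, k1, k2, -⟩ := dom_rep hx
  obtain ⟨l, hl, -, l1, l2, -⟩ := dom_rep hy
  rw [h] at k1 k2
  have e1 : mem3 a b c x * mem3 b c a y = mem3 b c a x * mem3 a b c y := by
    rw [k1, k2, l1, l2]; ring
  unfold mem3 at e1
  have e2 : cr x a * cr y b = cr x b * cr y a := by
    have h1 : cr c b * cr a c ≠ 0 := mul_ne_zero (cr_ne hbc.symm) (cr_ne hac)
    apply mul_left_cancel₀ h1
    linear_combination e1
  have e3 : ((cr x a : ℤ) : ℚ) * cr y b = cr x b * cr y a := by exact_mod_cast e2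
  rw [cr_cast, cr_cast, cr_cast, cr_cast] at e3
  have hxd : (x.den : ℚ) ≠ 0 := by exact_mod_cast x.den_nz
  have hyd : (y.den : ℚ) ≠ 0 := by exact_mod_cast y.den_nz
  have had : (a.den : ℚ) ≠ 0 := by exact_mod_cast a.den_nz
  have hbd : (b.den : ℚ) ≠ 0 := by exact_mod_cast b.den_nz
  have e4 : (x - a) * (y - b) = (x - b) * (y - a) := by
    have h1 : (x.den : ℚ) * y.den * a.den * b.den ≠ 0 := by positivity
    apply mul_left_cancel₀ h1
    linear_combination e3
  have e5 : (a - b) * (x - y) = 0 := by linear_combination e4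
  rcases mul_eq_zero.1 e5 with h1 | h1
  · exact absurd (sub_eq_zero.1 h1) hab
  · exact sub_eq_zero.1 h1

/-- the sum of the first two members -/
theorem third {a b c x : ℚ} (h : Dom a b c x) :
    gg a b c x * ((Tr a b c x).1 + (Tr a b c x).2) = (mem3 c a b x).natAbs := by
  obtain ⟨k, hk, hkg, k1, k2, -⟩ := dom_rep h
  have h1 := sum_mem a b c x
  have h2 : mem3 c a b x = - (k * (((Tr a b c x).1 + (Tr a b c x).2 : ℕ) : ℤ)) := by
    push_cast
    rw [k1, k2] at h1
    linarith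
  rw [h2, Int.natAbs_neg, Int.natAbs_mul, hkg, Int.natAbs_natCast]

theorem first {a b c x : ℚ} (h : Dom a b c x) :
    gg a b c x * (Tr a b c x).1 = (mem3 a b c x).natAbs := by
  obtain ⟨k, hk, hkg, k1, k2, -⟩ := dom_rep h
  rw [k1, Int.natAbs_mul, hkg, Int.natAbs_natCast]

theorem second {a b c x : ℚ} (h : Dom a b c x) :
    gg a b c x * (Tr a b c x).2 = (mem3 b c a x).natAbs := by
  obtain ⟨k, hk, hkg, k1, k2, -⟩ := dom_rep h
  rw [k2, Int.natAbs_mul, hkg, Int.natAbs_natCast]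

/-- a member and the corresponding determinant -/
theorem rd_member {g t L : ℕ} {l n : ℤ} (hl : l ≠ 0) (hn : n ≠ 0) (hL : L ≠ 0)
    (hlL : l.natAbs ∣ L) (hgL : g ∣ L) (h : g * t = (l * n).natAbs) :
    rd t ≤ L * rd n.natAbs ∧ rd n.natAbs ≤ L * rd t := by
  have hn0 : n.natAbs ≠ 0 := Int.natAbs_ne_zero.2 hn
  have hl0 : l.natAbs ≠ 0 := Int.natAbs_ne_zero.2 hl
  have hprod : g * t ≠ 0 := by
    rw [h, Int.natAbs_mul]
    exact mul_ne_zero hl0 hn0
  have ht0 : t ≠ 0 := right_ne_zero_of_mul hprod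
  constructor
  · calc rd t ≤ rd (g * t) := rd_le_of_dvd hprod (Dvd.intro_left _ rfl)
      _ = rd (l.natAbs * n.natAbs) := by rw [h, Int.natAbs_mul]
      _ ≤ L * rd n.natAbs := rd_mul_le' hn0 hlL hL
  · calc rd n.natAbs ≤ rd (l.natAbs * n.natAbs) :=
          rd_le_of_dvd (mul_ne_zero hl0 hn0) (Dvd.intro_left _ rfl)
      _ = rd (g * t) := by rw [h, Int.natAbs_mul]
      _ ≤ L * rd t := rd_mul_le' ht0 hgL hL

end Pool.Agent.T2H28.VS
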