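import Pool.Agent.T2H28.VS.Trp

/-!
# Rational numbers and triples of coprime integers: radicals, heights, the inverse map, counting
-/

set_option autoImplicit false

namespace Pool.Agent.T2H28.VS

open Finset

/-- the height of a rational number -/
def hh (x : ℚ) : ℕ := max x.num.natAbs x.den

/-- a bound for the coefficients -/
def Sz (a b c : ℚ) : ℕ :=
  2 * (a.num.natAbs + a.den + (b.num.natAbs + b.den) + (c.num.natAbs + c.den))

theorem Sz_pos (a b c : ℚ) : 0 < Sz a b c := by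
  have := a.pos
  unfold Sz
  omega

theorem lam_dvd₁ (a b c : ℚ) : (cr c b).natAbs ∣ Lam a b c := by
  unfold Lam
  rw [Int.natAbs_mul, Int.natAbs_mul]
  exact Dvd.dvd.mul_right (Dvd.intro _ rfl) _

theorem lam_dvd₂ (a b c : ℚ) : (cr a c).natAbs ∣ Lam a b c := by
  unfold Lam
  rw [Int.natAbs_mul, Int.natAbs_mul]
  exact Dvd.dvd.mul_right (Dvd.intro_left _ rfl) _

theorem lam_dvd₃ (a b c : ℚ) : (cr b a).natAbs ∣ Lam a b c := by
  unfold Lam
  rw [Int.natAbs_mul]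
  exact Dvd.intro_left _ rfl

theorem rd_first {a b c x : ℚ} (hab : a ≠ b) (hbc : b ≠ c) (hac : a ≠ c) (hxa : x ≠ a)
    (h : Dom a b c x) :
    rd (Tr a b c x).1 ≤ Lam a b c * rd (cr x a).natAbs ∧
      rd (cr x a).natAbs ≤ Lam a b c * rd (Tr a b c x).1 :=
  rd_member (cr_ne hbc.symm) (cr_ne hxa) (Lam_ne hab hbc hac) (lam_dvd₁ a b c) (gg_dvd a b c x)
    (first h)

theorem rd_second {a b c x : ℚ} (hab : a ≠ b) (hbc : b ≠ c) (hac : a ≠ c) (hxb : x ≠ b)
    (h : Dom a b c x) :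
    rd (Tr a b c x).2 ≤ Lam a b c * rd (cr x b).natAbs ∧
      rd (cr x b).natAbs ≤ Lam a b c * rd (Tr a b c x).2 :=
  rd_member (cr_ne hac) (cr_ne hxb) (Lam_ne hab hbc hac) (lam_dvd₂ a b c) (gg_dvd a b c x)
    (second h)

theorem rd_third {a b c x : ℚ} (hab : a ≠ b) (hbc : b ≠ c) (hac : a ≠ c) (hxc : x ≠ c)
    (h : Dom a b c x) :
    rd ((Tr a b c x).1 + (Tr a b c x).2) ≤ Lam a b c * rd (cr x c).natAbs ∧
      rd (cr x c).natAbs ≤ Lam a b c * rd ((Tr a b c x).1 + (Tr a b c x).2) :=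
  rd_member (cr_ne hab.symm) (cr_ne hxc) (Lam_ne hab hbc hac) (lam_dvd₃ a b c) (gg_dvd a b c x)
    (third h)

/-- the product of the determinants -/
def NN (a b c x : ℚ) : ℕ := (cr x a * cr x b * cr x c).natAbs

theorem NN_ne {a b c x : ℚ} (ha : x ≠ a) (hb : x ≠ b) (hc : x ≠ c) : NN a b c x ≠ 0 := by
  unfold NN
  rw [Int.natAbs_ne_zero]
  exact mul_ne_zero (mul_ne_zero (cr_ne ha) (cr_ne hb)) (cr_ne hc)

/-- the radical of the product of the members -/
theorem rd_total {a b c x : ℚ} (hab : a ≠ b) (hbc : b ≠ c) (hac : a ≠ c) (hxa : x ≠ a)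
    (hxb : x ≠ b) (hxc : x ≠ c) (h : Dom a b c x) :
    rd ((Tr a b c x).1 * (Tr a b c x).2 * ((Tr a b c x).1 + (Tr a b c x).2)) ≤
        Lam a b c * rd (NN a b c x) ∧
      rd (NN a b c x) ≤ Lam a b c *
        rd ((Tr a b c x).1 * (Tr a b c x).2 * ((Tr a b c x).1 + (Tr a b c x).2)) := by
  obtain ⟨g, hg⟩ : ∃ g, g = gg a b c x := ⟨_, rfl⟩
  obtain ⟨t, ht⟩ : ∃ t, t = (Tr a b c x).1 * (Tr a b c x).2 *
    ((Tr a b c x).1 + (Tr a b c x).2) := ⟨_, rfl⟩
  have hL := Lam_ne hab hbc hac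
  have hN := NN_ne hxa hxb hxc
  have hgL : g ∣ Lam a b c := hg ▸ gg_dvd a b c x
  have e1 : g * g * g * t = Lam a b c * NN a b c x := by
    have h1 := first h
    have h2 := second h
    have h3 := third h
    rw [← hg] at h1 h2 h3
    have e : g * g * g * t = (g * (Tr a b c x).1) * (g * (Tr a b c x).2) *
        (g * ((Tr a b c x).1 + (Tr a b c x).2)) := by rw [ht]; ring
    rw [e, h1, h2, h3]
    unfold Lam NN mem3
    simp only [Int.natAbs_mul]
    ring
  have hprod : g * g * g * t ≠ 0 := by rw [e1]; exact mul_ne_zero hL hN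
  have ht0 : t ≠ 0 := right_ne_zero_of_mul hprod
  have hg0 : g ≠ 0 := ne_zero_of_dvd_ne_zero hL hgL
  rw [← ht]
  constructor
  · calc rd t ≤ rd (g * g * g * t) := rd_le_of_dvd hprod (Dvd.intro_left _ rfl)
      _ = rd (Lam a b c * NN a b c x) := by rw [e1]
      _ ≤ _ := rd_mul_le hL hN
  · calc rd (NN a b c x) ≤ rd (Lam a b c * NN a b c x) :=
          rd_le_of_dvd (mul_ne_zero hL hN) (Dvd.intro_left _ rfl)
      _ = rd (g * t) := by rw [← e1, rd_cube hg0 ht0]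
      _ ≤ _ := rd_mul_le' ht0 hgL hL

/-- a determinant is at most the height -/
theorem cr_le (x a : ℚ) : (cr x a).natAbs ≤ (a.num.natAbs + a.den) * hh x := by
  have h1 : (cr x a).natAbs ≤ (x.num * a.den).natAbs + (a.num * x.den).natAbs := by
    unfold cr
    omega
  rw [Int.natAbs_mul, Int.natAbs_mul, Int.natAbs_natCast, Int.natAbs_natCast] at h1
  have h2 : x.num.natAbs ≤ hh x := le_max_left _ _
  have h3 : x.den ≤ hh x := le_max_right _ _
  calc (cr x a).natAbs ≤ x.num.natAbs * a.den + a.num.natAbs * x.den := h1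
    _ ≤ hh x * a.den + a.num.natAbs * hh x :=
      Nat.add_le_add (Nat.mul_le_mul_right _ h2) (Nat.mul_le_mul_left _ h3)
    _ = _ := by ring

/-- the height is at most the determinants -/
theorem hh_le {x a b : ℚ} (hab : a ≠ b) :
    hh x ≤ (a.num.natAbs + a.den + (b.num.natAbs + b.den)) *
      ((cr x a).natAbs + (cr x b).natAbs) := by
  have hc : 1 ≤ (cr b a).natAbs := Int.natAbs_pos.2 (cr_ne hab.symm)
  obtain ⟨p, hp⟩ : ∃ p, p = (cr x a).natAbs := ⟨_, rfl⟩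
  obtain ⟨q, hq⟩ : ∃ q, q = (cr x b).natAbs := ⟨_, rfl⟩
  have e1 : x.num * cr b a = b.num * cr x a - a.num * cr x b := by unfold cr; ring
  have e2 : (x.den : ℤ) * cr b a = b.den * cr x a - a.den * cr x b := by unfold cr; ring
  have h1 : x.num.natAbs * (cr b a).natAbs ≤ b.num.natAbs * p + a.num.natAbs * q := by
    rw [← Int.natAbs_mul, e1, hp, hq, ← Int.natAbs_mul, ← Int.natAbs_mul]
    omega
  have h2 : x.den * (cr b a).natAbs ≤ b.den * p + a.den * q := by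
    have h3 : ((x.den : ℤ) * cr b a).natAbs = x.den * (cr b a).natAbs := by
      rw [Int.natAbs_mul, Int.natAbs_natCast]
    have h4 : ((b.den : ℤ) * cr x a).natAbs = b.den * p := by
      rw [Int.natAbs_mul, Int.natAbs_natCast, hp]
    have h5 : ((a.den : ℤ) * cr x b).natAbs = a.den * q := by
      rw [Int.natAbs_mul, Int.natAbs_natCast, hq]
    rw [← h3, e2, ← h4, ← h5]
    omega
  rw [← hp, ← hq]
  refine max_le ?_ ?_
  · calc x.num.natAbs ≤ x.num.natAbs * (cr b a).natAbs := Nat.le_mul_of_pos_right _ hc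
      _ ≤ b.num.natAbs * p + a.num.natAbs * q := h1
      _ ≤ _ := by nlinarith [Nat.zero_le p, Nat.zero_le q, Nat.zero_le a.den, Nat.zero_le b.den,
          Nat.zero_le a.num.natAbs, Nat.zero_le b.num.natAbs]
  · calc x.den ≤ x.den * (cr b a).natAbs := Nat.le_mul_of_pos_right _ hc
      _ ≤ b.den * p + a.den * q := h2
      _ ≤ _ := by nlinarith [Nat.zero_le p, Nat.zero_le q, Nat.zero_le a.den, Nat.zero_le b.den,
          Nat.zero_le a.num.natAbs, Nat.zero_le b.num.natAbs]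

/-- the constant -/
def Kc (a b c : ℚ) : ℕ := 2 * Lam a b c * Sz a b c

theorem Lam_le_Kc (a b c : ℚ) : Lam a b c ≤ Kc a b c := by
  unfold Kc
  have := Sz_pos a b c
  nlinarith [Nat.zero_le (Lam a b c)]

theorem Kc_pos {a b c : ℚ} (hab : a ≠ b) (hbc : b ≠ c) (hac : a ≠ c) : 0 < Kc a b c :=
  lt_of_lt_of_le (Nat.pos_of_ne_zero (Lam_ne hab hbc hac)) (Lam_le_Kc a b c)

/-- the size of the triple and the height -/
theorem size_le {a b c x : ℚ} (hab : a ≠ b) (hbc : b ≠ c) (hac : a ≠ c) (h : Dom a b c x) :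
    (Tr a b c x).1 + (Tr a b c x).2 ≤ Kc a b c * hh x ∧
      hh x ≤ Kc a b c * ((Tr a b c x).1 + (Tr a b c x).2) := by
  obtain ⟨g, hg⟩ : ∃ g, g = gg a b c x := ⟨_, rfl⟩
  have hL := Lam_ne hab hbc hac
  have hgL : g ∣ Lam a b c := hg ▸ gg_dvd a b c x
  have hg0 : 0 < g := Nat.pos_of_ne_zero (ne_zero_of_dvd_ne_zero hL hgL)
  have hgle : g ≤ Lam a b c := Nat.le_of_dvd (Nat.pos_of_ne_zero hL) hgL
  have h1 := first h
  have h2 := second h
  rw [← hg] at h1 h2
  obtain ⟨A, hA⟩ : ∃ A, A = (Tr a b c x).1 := ⟨_, rfl⟩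
  obtain ⟨B, hB⟩ : ∃ B, B = (Tr a b c x).2 := ⟨_, rfl⟩
  rw [← hA] at h1 ⊢
  rw [← hB] at h2 ⊢
  unfold mem3 at h1 h2
  rw [Int.natAbs_mul] at h1 h2
  have c1 : 1 ≤ (cr c b).natAbs := Int.natAbs_pos.2 (cr_ne hbc.symm)
  have c2 : 1 ≤ (cr a c).natAbs := Int.natAbs_pos.2 (cr_ne hac)
  have c3 : (cr c b).natAbs ≤ Lam a b c := Nat.le_of_dvd (Nat.pos_of_ne_zero hL) (lam_dvd₁ a b c)
  have c4 : (cr a c).natAbs ≤ Lam a b c := Nat.le_of_dvd (Nat.pos_of_ne_zero hL) (lam_dvd₂ a b c)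
  have hxa := cr_le x a
  have hxb := cr_le x b
  obtain ⟨H, hH⟩ : ∃ H, H = hh x := ⟨_, rfl⟩
  obtain ⟨L, hLd⟩ : ∃ L, L = Lam a b c := ⟨_, rfl⟩
  obtain ⟨S, hS⟩ : ∃ S, S = Sz a b c := ⟨_, rfl⟩
  have hS1 : 2 * (a.num.natAbs + a.den + (b.num.natAbs + b.den)) ≤ S := by
    rw [hS]; unfold Sz; omega
  constructor
  · unfold Kc
    rw [← hH] at hxa hxb ⊢
    rw [← hLd] at c3 c4 ⊢
    rw [← hS]
    calc A + B ≤ g * A + g * B :=
          Nat.add_le_add (Nat.le_mul_of_pos_left _ hg0) (Nat.le_mul_of_pos_left _ hg0)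
      _ = (cr c b).natAbs * (cr x a).natAbs + (cr a c).natAbs * (cr x b).natAbs := by rw [h1, h2]
      _ ≤ L * ((a.num.natAbs + a.den) * H) + L * ((b.num.natAbs + b.den) * H) :=
          Nat.add_le_add (Nat.mul_le_mul c3 hxa) (Nat.mul_le_mul c4 hxb)
      _ = L * (a.num.natAbs + a.den + (b.num.natAbs + b.den)) * H := by ring
      _ ≤ L * S * H := by
          refine Nat.mul_le_mul_right _ (Nat.mul_le_mul_left _ ?_)
          omega
      _ ≤ 2 * L * S * H := by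
          refine Nat.mul_le_mul_right _ (Nat.mul_le_mul_right _ ?_)
          omega
  · unfold Kc
    rw [← hLd] at hgle ⊢
    rw [← hS]
    calc hh x ≤ (a.num.natAbs + a.den + (b.num.natAbs + b.den)) *
          ((cr x a).natAbs + (cr x b).natAbs) := hh_le hab
      _ ≤ S * (g * A + g * B) := by
          rw [h1, h2]
          refine Nat.mul_le_mul (by omega) (Nat.add_le_add ?_ ?_)
          · exact Nat.le_mul_of_pos_left _ c1
          · exact Nat.le_mul_of_pos_left _ c2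
      _ = S * g * (A + B) := by ring
      _ ≤ S * L * (A + B) := Nat.mul_le_mul_right _ (Nat.mul_le_mul_left _ hgle)
      _ ≤ 2 * L * S * (A + B) := by
          refine Nat.mul_le_mul_right _ ?_
          nlinarith [Nat.zero_le (L * S)]

/-- every rational number is in the domain of one of the maps -/
theorem cover (f : Fin 3 → ℚ) (hf : Function.Injective f) (x : ℚ) (hx : ∀ j, x ≠ f j) :
    ∃ t : Fin 3 × Fin 3 × Fin 3, (t.1 ≠ t.2.1 ∧ t.2.1 ≠ t.2.2 ∧ t.1 ≠ t.2.2) ∧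
      Dom (f t.1) (f t.2.1) (f t.2.2) x := by
  have h01 : f 0 ≠ f 1 := fun h => by simpa using hf h
  have h12 : f 1 ≠ f 2 := fun h => by simpa using hf h
  have h02 : f 0 ≠ f 2 := fun h => by simpa using hf h
  obtain ⟨u, hu⟩ : ∃ u, u = mem3 (f 0) (f 1) (f 2) x := ⟨_, rfl⟩
  obtain ⟨v, hv⟩ : ∃ v, v = mem3 (f 1) (f 2) (f 0) x := ⟨_, rfl⟩
  obtain ⟨w, hw⟩ : ∃ w, w = mem3 (f 2) (f 0) (f 1) x := ⟨_, rfl⟩
  have hu' : mem3 (f 0) (f 2) (f 1) x = -u := by rw [hu, mem3_swap]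
  have hv' : mem3 (f 1) (f 0) (f 2) x = -v := by rw [hv, mem3_swap]
  have hw' : mem3 (f 2) (f 1) (f 0) x = -w := by rw [hw, mem3_swap]
  have hu0 : u ≠ 0 := by rw [hu]; exact mem3_ne h12 (hx 0)
  have hv0 : v ≠ 0 := by rw [hv]; exact mem3_ne h02.symm (hx 1)
  have hw0 : w ≠ 0 := by rw [hw]; exact mem3_ne h01 (hx 2)
  have hs : u + v + w = 0 := by rw [hu, hv, hw]; exact sum_mem _ _ _ _
  have key : (0 < u * v) ∨ (0 < v * w) ∨ (0 < w * u) := by
    rcases lt_or_gt_of_ne hu0 with h1 | h1 <;> rcases lt_or_gt_of_ne hv0 with h2 | h2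
    · exact Or.inl (mul_pos_of_neg_of_neg h1 h2)
    · rcases lt_or_gt_of_ne hw0 with h3 | h3
      · exact Or.inr (Or.inr (mul_pos_of_neg_of_neg h3 h1))
      · exact Or.inr (Or.inl (mul_pos h2 h3))
    · rcases lt_or_gt_of_ne hw0 with h3 | h3
      · exact Or.inr (Or.inl (mul_pos_of_neg_of_neg h2 h3))
      · exact Or.inr (Or.inr (mul_pos h3 h1))
    · exact Or.inl (mul_pos h1 h2)
  rcases key with h | h | h
  · rcases Nat.le_total u.natAbs v.natAbs with hle | hle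
    · refine ⟨(0, 1, 2), by decide, ?_⟩
      show Dom (f 0) (f 1) (f 2) x
      unfold Dom
      rw [← hu, ← hv]
      exact ⟨h, hle⟩
    · refine ⟨(1, 0, 2), by decide, ?_⟩
      show Dom (f 1) (f 0) (f 2) x
      unfold Dom
      rw [hv', hu', Int.natAbs_neg, Int.natAbs_neg]
      exact ⟨by linarith, hle⟩
  · rcases Nat.le_total v.natAbs w.natAbs with hle | hle
    · refine ⟨(1, 2, 0), by decide, ?_⟩
      show Dom (f 1) (f 2) (f 0) x
      unfold Dom
      rw [← hv, ← hw]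
      exact ⟨h, hle⟩
    · refine ⟨(2, 1, 0), by decide, ?_⟩
      show Dom (f 2) (f 1) (f 0) x
      unfold Dom
      rw [hw', hv', Int.natAbs_neg, Int.natAbs_neg]
      exact ⟨by linarith, hle⟩
  · rcases Nat.le_total w.natAbs u.natAbs with hle | hle
    · refine ⟨(2, 0, 1), by decide, ?_⟩
      show Dom (f 2) (f 0) (f 1) x
      unfold Dom
      rw [← hw, ← hu]
      exact ⟨h, hle⟩
    · refine ⟨(0, 2, 1), by decide, ?_⟩
      show Dom (f 0) (f 2) (f 1) x
      unfold Dom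
      rw [hu', hw', Int.natAbs_neg, Int.natAbs_neg]
      exact ⟨by linarith, hle⟩

end Pool.Agent.T2H28.VS
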