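import Pool.Agent.Results.MP_a41896_nt.OneExceptionalSet

/-!
# Vojta's inequality on stacky curves over the points with large counting function
-/

set_option autoImplicit false

namespace Pool.Agent.T2H28.VS

open Polynomial IsDedekindDomain NumberField
open Pool.Agent.Results.MP_a41896_nt.OneExceptionalSet

/-- the sum `∑_{l ∉ J} dim (A / I_l) / (e_l N)` -/
noncomputable def ssum (k : Type) {A : Type} [Field k] [CommRing A] [Algebra k A]
    [Algebra k[X] A] {n : ℕ} {s : Fin n → ℕ} (z : ∀ l, Fin (s l + 1) → A)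
    (e : Fin n → ℕ) (J : Finset (Fin n)) : ℝ :=
  ∑ l ∈ Jᶜ, (Module.finrank k (A ⧸ Ideal.span (Set.range (z l))) : ℝ) /
    (e l * Module.finrank k[X] A)

/-- Vojta's inequality for the points over the `x` with `θ log H(x) ≤ N(x) + C₀` -/
theorem vojta (K : Type) [Field K] [NumberField K] (q : ℕ) (a : Fin q → ℚ)
    (θ : ℝ) (hθ : 0 ≤ θ) (C₀ : ℝ) (ε : ℝ) (hε : 0 < ε)
    (k : Type) [Field k] [NumberField k] (A : Type) [CommRing A] [IsDedekindDomain A]
        [Algebra k A] [Algebra k[X] A] [IsScalarTower k k[X] A] [Module.Finite k[X] A]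
        [FaithfulSMul k[X] A] (n : ℕ) (j : Fin n → Fin q) (s : Fin n → ℕ)
        (z : ∀ l, Fin (s l + 1) → A)
        (hz0 : ∀ l, z l 0 = coord k A - algebraMap k A (algebraMap ℚ k (a (j l))))
        (hcov : ∀ i, ∏ l with j l = i, Ideal.span (Set.range (z l)) ≤
          (Ideal.span {coord k A - algebraMap k A (algebraMap ℚ k (a i))}).radical)
        (S : Finset ℕ) (hS : ∀ p ∈ S, p.Prime) : ∃ c : ℝ,
          ∀ x : K, θ * Real.log (Height.mulHeight₁ x) ≤
              Pool.Agent.Y728.AK.cntK ∅ (fun j => algebraMap ℚ K (a j)) x + C₀ →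
            (∀ i, x ≠ algebraMap ℚ K (a i)) →
          ∀ (L : Type) [Field L] [NumberField L] [Algebra K L] [Algebra k L] (φ : A →ₐ[k] L),
            φ (coord k A) = algebraMap K L x → ∀ e : Fin n → ℕ, (∀ l, 1 ≤ e l) →
            IsIntegralPoint S z e φ → ∀ J : Finset (Fin n),
              (θ - ssum k z e J - ε) * height x ≤ truncated S z J φ + logDisc L + c := by
  classical
  have hn0 : (0 : ℝ) < (n : ℝ) + 1 := by positivity
  obtain ⟨M, Ck, G, hM, hCk, hG, hkey⟩ := Pool.Agent.Y557.OE.keyP k A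
    (fun i => algebraMap ℚ k (a i)) j s z hz0 hcov (ε / (n + 1)) (by positivity)
  obtain ⟨W, hW0, hbase⟩ := Pool.Agent.Y557.OE.base_all (K := K) a (M.primeFactors ∪ S) (by
    intro p hp
    rcases Finset.mem_union.1 hp with h | h
    · exact Nat.prime_of_mem_primeFactors h
    · exact hS p h)
  have hR : {x : K | aeval x G = 0}.Finite := by
    refine (Polynomial.rootSet_finite G K).subset fun x hx => ?_
    exact (Polynomial.mem_rootSet_of_ne hG).mpr hx
  obtain ⟨d, hd⟩ : ∃ d : ℝ, d = (Module.finrank ℚ K : ℝ) := ⟨_, rfl⟩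
  have hd0 : 0 < d := by rw [hd]; exact_mod_cast Module.finrank_pos
  obtain ⟨lK, hlK⟩ : ∃ lK : ℝ, lK = Real.log |(discr K : ℝ)| := ⟨_, rfl⟩
  have hsum0 : 0 ≤ ∑ x ∈ hR.toFinset, θ * height x :=
    Finset.sum_nonneg fun x _ => mul_nonneg hθ (height_nonneg x)
  refine ⟨|n * Ck + W + C₀ / d - lK / d| + ∑ x ∈ hR.toFinset, θ * height x, ?_⟩
  intro x hxe hxa L _ _ _ _ φ hφ e he hint J
  have hLpos : (0 : ℝ) < Module.finrank ℚ L := by exact_mod_cast Module.finrank_pos
  obtain ⟨T, hT⟩ : ∃ T : ℝ, T = Pool.Agent.W223.CV.cc S (fun v : HeightOneSpectrum (𝓞 L) =>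
    ∃ l ∈ J, Pool.Agent.Y557.OE.Nz k (z l) (φ : A →+* L) v) := ⟨_, rfl⟩
  have hT0 : 0 ≤ T := by rw [hT]; exact cc_nonneg _ _
  rw [truncated_eq, ← hT]
  have hTd : 0 ≤ T / Module.finrank ℚ L := div_nonneg hT0 hLpos.le
  have hD0 := logDisc_nonneg L
  have hh0 := height_nonneg x
  have hs0 : 0 ≤ ssum k z e J := Finset.sum_nonneg fun l _ => by positivity
  by_cases hGx : aeval x G = 0
  · -- finitely many values
    have hxR : x ∈ hR.toFinset := (Set.Finite.mem_toFinset hR).2 hGx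
    have h1 : θ * height x ≤ ∑ x ∈ hR.toFinset, θ * height x :=
      Finset.single_le_sum (f := fun x : K => θ * height x)
        (fun x _ => mul_nonneg hθ (height_nonneg x)) hxR
    have h3 : (θ - ssum k z e J - ε) * height x ≤ θ * height x :=
      mul_le_mul_of_nonneg_right (by linarith) hh0
    have h4 := abs_nonneg (n * Ck + W + C₀ / d - lK / d)
    linarith
  have hφ' : φ (algebraMap k[X] A X) = algebraMap K L x := hφ
  obtain ⟨hfin, hk1, hk2⟩ := hkey L φ (by
    rw [hφ', aeval_algebraMap_apply]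
    intro h
    exact hGx ((map_eq_zero _).1 h)) (by
    intro i h
    rw [hφ', ← IsScalarTower.algebraMap_apply, IsScalarTower.algebraMap_apply ℚ K L] at h
    exact hxa i ((algebraMap K L).injective h))
  have hk1 := hk1 S
  rw [hφ', Pool.Agent.Y557.OE.cnt_tower (k₀ := ℚ) (k := k)] at hk1
  have hb1 := hbase L x hxa
  have h8 := cc_pieces S J (fun l (v : HeightOneSpectrum (𝓞 L)) =>
    Pool.Agent.Y557.OE.Nz k (z l) (φ : A →+* L) v) hfin
  rw [← hT] at h8
  have hfd : FiniteDimensional K L := Module.Finite.of_restrictScalars_finite ℚ K L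
  obtain ⟨m, hm⟩ : ∃ m : ℝ, m = (Module.finrank K L : ℝ) := ⟨_, rfl⟩
  have hm0 : 0 < m := by rw [hm]; exact_mod_cast Module.finrank_pos
  have htow : (Module.finrank ℚ L : ℝ) = d * m := by
    rw [hd, hm]
    exact_mod_cast (Module.finrank_mul_finrank ℚ K L).symm
  have hdm : 0 < d * m := mul_pos hd0 hm0
  obtain ⟨H, hH⟩ : ∃ H : ℝ, H = Real.log (Height.mulHeight₁ x) := ⟨_, rfl⟩
  have hHx : height x = H / d := by
    rw [hH, hd]
    unfold height
    rw [Height.logHeight₁_eq_log_mulHeight₁]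
  have hH0 : 0 ≤ H := by
    rw [hH]
    exact Real.log_nonneg (Height.one_le_mulHeight₁ _)
  have hHξ : Real.log (Height.mulHeight₁ (algebraMap K L x)) = m * H := by
    rw [Pool.Agent.W223.AC.MK.log_height_ext L x, ← hm, ← hH]
  -- the pieces outside `J`
  obtain ⟨N0, hN0⟩ : ∃ N0 : ℝ, N0 = (Module.finrank k[X] A : ℝ) := ⟨_, rfl⟩
  obtain ⟨D, hD⟩ : ∃ D : Fin n → ℝ, D = fun l =>
    (Module.finrank k (A ⧸ Ideal.span (Set.range (z l))) : ℝ) := ⟨_, rfl⟩
  have h5 : ∀ l, Pool.Agent.W223.CV.cc S (fun v : HeightOneSpectrum (𝓞 L) =>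
        Pool.Agent.Y557.OE.Nz k (z l) (φ : A →+* L) v) ≤
      (D l / (e l * N0) + ε / (n + 1)) * (m * H) + Ck * (d * m) := by
    intro l
    have he1 : (1 : ℝ) ≤ e l := by exact_mod_cast he l
    have h9 := hk2 l S (e l) (by
      intro v hvS hnear i
      obtain ⟨m', hm', hle, i', hi'⟩ := hint v hvS l hnear
      have hm0 : m' ≠ 0 := by
        rintro rfl
        have h9 : v.valuation L (φ (z l i')) < 1 := hnear.2 i'
        rw [hi'] at h9
        simp at h9
      obtain ⟨c', rfl⟩ := hm'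
      refine (hle i).trans ?_
      rw [WithZero.exp_le_exp, neg_le_neg_iff]
      have : 1 ≤ c' := by
        rcases Nat.eq_zero_or_pos c' with h | h
        · rw [h, mul_zero] at hm0; exact absurd rfl hm0
        · exact h
      exact_mod_cast Nat.le_mul_of_pos_right _ this)
    rw [hφ', hHξ, htow, ← hN0] at h9
    have hDl : (Module.finrank k (A ⧸ Ideal.span (Set.range (z l))) : ℝ) = D l := by rw [hD]
    rw [hDl] at h9
    have he0 : (0 : ℝ) < e l := by linarith
    refine le_of_mul_le_mul_left (h9.trans ?_) he0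
    have h12 : (e l : ℝ) * ((D l / (e l * N0) + ε / (n + 1)) * (m * H) + Ck * (d * m)) =
        D l / N0 * (m * H) + e l * (ε / (n + 1) * (m * H) + Ck * (d * m)) := by
      rw [mul_comm (e l : ℝ) N0, ← div_div]
      field_simp
      ring
    rw [h12]
    have h13 : 0 ≤ ε / (n + 1) * (m * H) + Ck * (d * m) := by positivity
    nlinarith
  have h6 := Finset.sum_le_sum fun l (_ : l ∈ Jᶜ) => h5 l
  obtain ⟨g, hg⟩ : ∃ g : ℝ, g = ssum k z e J := ⟨_, rfl⟩
  have hgs : ∑ l ∈ Jᶜ, D l / (e l * N0) = g := by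
    rw [hg, hD, hN0]
    rfl
  have hJ : ((Jᶜ.card : ℕ) : ℝ) ≤ n := by
    have := Finset.card_le_univ Jᶜ
    rw [Fintype.card_fin] at this
    exact_mod_cast this
  have h7 : ∑ l ∈ Jᶜ, ((D l / (e l * N0) + ε / (n + 1)) * (m * H) + Ck * (d * m)) ≤
      (g + ε) * (m * H) + n * Ck * (d * m) := by
    rw [Finset.sum_add_distrib, ← Finset.sum_mul, Finset.sum_add_distrib, Finset.sum_const,
      Finset.sum_const, nsmul_eq_mul, nsmul_eq_mul, hgs]
    have h10 : ((Jᶜ.card : ℕ) : ℝ) * (ε / (n + 1)) ≤ ε := by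
      rw [mul_div_assoc', div_le_iff₀ hn0]
      nlinarith
    have hmH : 0 ≤ m * H := mul_nonneg hm0.le hH0
    have h11 := mul_le_mul_of_nonneg_right h10 hmH
    have h12 : ((Jᶜ.card : ℕ) : ℝ) * (Ck * (d * m)) ≤ n * (Ck * (d * m)) :=
      mul_le_mul_of_nonneg_right hJ (by positivity)
    nlinarith
  rw [← hg, hHx]
  unfold logDisc
  obtain ⟨lL, hlL⟩ : ∃ lL : ℝ, lL = Real.log |(discr L : ℝ)| := ⟨_, rfl⟩
  rw [← hlL, htow]
  rw [← hm, ← hlK, ← hlL, htow] at hb1
  rw [← hH] at hxe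
  have h9 : m * (lK + (θ * H - C₀)) ≤
      lL + (T + ((g + ε) * (m * H) + n * Ck * (d * m))) + d * m * W := by
    have h10 : m * (lK + (θ * H - C₀)) ≤ m * (lK +
        Pool.Agent.Y728.AK.cntK ∅ (fun j => algebraMap ℚ K (a j)) x) :=
      mul_le_mul_of_nonneg_left (by linarith) hm0.le
    linarith
  have h10 : m * ((θ - g - ε) * H) ≤ lL + T + d * m * (n * Ck + W + C₀ / d - lK / d) := by
    have e10 : d * m * (n * Ck + W + C₀ / d - lK / d) =
        n * Ck * (d * m) + d * m * W + m * C₀ - m * lK := by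
      field_simp
    rw [e10]
    have e11 : m * (lK + (θ * H - C₀)) - (g + ε) * (m * H) =
        m * lK - m * C₀ + m * ((θ - g - ε) * H) := by
      ring
    linarith
  have h11 : (m * ((θ - g - ε) * H)) / (d * m) ≤
      (lL + T + d * m * (n * Ck + W + C₀ / d - lK / d)) / (d * m) :=
    div_le_div_of_nonneg_right h10 hdm.le
  have e12 : (m * ((θ - g - ε) * H)) / (d * m) = (θ - g - ε) * (H / d) := by
    field_simp
  have e13 : (lL + T + d * m * (n * Ck + W + C₀ / d - lK / d)) / (d * m) =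
      T / (d * m) + lL / (d * m) + (n * Ck + W + C₀ / d - lK / d) := by
    rw [add_div, add_div, mul_div_cancel_left₀ _ hdm.ne']
    ring
  rw [e12, e13] at h11
  have h14 := le_abs_self (n * Ck + W + C₀ / d - lK / d)
  linarith

end Pool.Agent.T2H28.VS
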